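import Pool.Agent.Helper7.E2.List2

/-!
# E-T (MP_12a1af_nt), phase 2: top theorem with lists, the case of equal zone bottoms
-/

set_option autoImplicit false

open Finset

namespace Pool.Agent.Helper70.E2

open Pool.Agent.ETS (Hash pairs mem_pairs)
open Pool.Agent.E2 Pool.Agent.Helper7.E2

/-- the digits of the sum of two zones with the same bottom -/
theorem arith0 {P L R R' u t s u' t' s' ν : ℕ} (hP : 0 < P) (hL : 0 < L)
    (h : P * ((u + L * t + s) % (L * R)) + P * ((u' + L * t' + s') % (L * R')) = ν) :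
    (u + u' + (s + s')) % L = ν / P % L ∧
    (t + (u + s) / L + (t' + (u' + s') / L) % R' + ((u + s) % L + (u' + s') % L) / L) % R =
      ν / P / L % R := by
  have e3 : ∀ u t s R : ℕ, (u + L * t + s) % (L * R) =
      (u + s) % L + L * ((t + (u + s) / L) % R) := by
    intro u t s R
    rw [Nat.mod_mul]
    have a1 : u + L * t + s = u + s + L * t := by ring
    rw [a1, Nat.add_mul_mod_self_left, Nat.add_mul_div_left _ _ hL, add_comm ((u + s) / L) t]
  rw [e3, e3] at h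
  have e4 : ν / P = ((u + s) % L + (u' + s') % L) +
      L * ((t + (u + s) / L) % R + (t' + (u' + s') / L) % R') := by
    rw [← h, ← mul_add, Nat.mul_div_cancel_left _ hP]; ring
  constructor
  · rw [e4, Nat.add_mul_mod_self_left, ← Nat.add_mod]
    congr 1
    ring
  · rw [e4, Nat.add_mul_div_left _ _ hL]
    have e5 : ((u + s) % L + (u' + s') % L) / L + ((t + (u + s) / L) % R +
        (t' + (u' + s') / L) % R') = (t + (u + s) / L) % R + ((t' + (u' + s') / L) % R' +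
        ((u + s) % L + (u' + s') % L) / L) := by ring
    rw [e5, Nat.mod_add_mod]
    congr 1
    ring

theorem div_step {L u s : ℕ} (hL : 0 < L) (hu : u < L) :
    ∃ e < 2, (u + s) / L = s / L + e := by
  have h1 : (u + s) / L < s / L + 2 := by
    rw [Nat.div_lt_iff_lt_mul hL]
    have := Nat.lt_div_mul_add hL (a := s)
    calc u + s < L + (s / L * L + L) := by omega
      _ = (s / L + 2) * L := by ring
  have h2 : s / L ≤ (u + s) / L := Nat.div_le_div_right (Nat.le_add_left _ _)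
  exact ⟨(u + s) / L - s / L, by omega, by omega⟩

theorem sub_mod_iff {R X N d : ℕ} (hR : 0 < R) (h : (X + d) % R = N % R) :
    X % R = (N + (R - 1) * d) % R := by
  have h1 : (N + (R - 1) * d) + d ≡ N [MOD R] := by
    have h2 : (N + (R - 1) * d) + d = N + R * d := by
      obtain ⟨m, hm⟩ := Nat.exists_eq_add_of_le (show 1 ≤ R from hR)
      rw [hm, Nat.add_sub_cancel_left]; ring
    rw [h2]
    show (N + R * d) % R = N % R
    rw [Nat.add_mul_mod_self_left]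
  exact Nat.ModEq.add_right_cancel' d ((show X + d ≡ N [MOD R] from h).trans h1.symm)

variable {G : Geo}

/-- the window pairs with a prescribed sum -/
def WP (G : Geo) (D : ℕ → Dt) (K K' σ σ' ε n : ℕ) : Finset (ℕ × ℕ) :=
  ((D K).T ×ˢ (D K').T).filter (fun p =>
    (p.1 + σ + (p.2 + σ' + ε) % 2 ^ G.ρ K') % 2 ^ G.ρ K = n % 2 ^ G.ρ K)

/-- reduction to window pairs -/
theorem cnt_zone0 (hG : G.Ok) {D : ℕ → Dt} {K K' : ℕ} (hn : G.Near K K') (hq : G.q K = G.q K')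
    (h h' : Hash) (ν : ℕ) :
    cnt [zn G D K] [zn G D K'] h h' ν ≤
      8 * ∑ x ∈ range 2 ×ˢ range 3, (WP G D K K' (h [] / 2 ^ G.l K) (h' [] / 2 ^ G.l K') x.1
        (ν / 2 ^ G.w K + (2 ^ G.ρ K - 1) * x.2)).card := by
  classical
  have hK' : G.K0 ≤ K' := hn.1
  have hK : G.K0 ≤ K := hn.1.trans hn.2.1
  have hl : G.l K' = G.l K := by unfold Geo.l; rw [hq]
  have hwq : 2 ^ G.w K = 2 ^ G.q K * 2 ^ G.l K := by rw [← pow_add]; rfl
  set P := 2 ^ G.q K with hP
  set L := 2 ^ G.l K with hL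
  set R := 2 ^ G.ρ K with hR
  set R' := 2 ^ G.ρ K' with hR'
  have hP0 : 0 < P := by positivity
  have hL0 : 0 < L := by positivity
  have hR0 : 0 < R := by positivity
  set s := h [] with hs
  set s' := h' [] with hs'
  let P0 : Finset (ℕ × ℕ) := (G.Sd (G.l K) ×ˢ G.Sd (G.l K)).filter (fun q =>
    (q.1 + q.2 + (s + s')) % L = ν / P % L)
  let ε : ℕ × ℕ → ℕ := fun q => (q.2 + s') / L - s' / L
  let δ : ℕ × ℕ → ℕ := fun q => (q.1 + s) / L - s / L + ((q.1 + s) % L + (q.2 + s') % L) / L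
  let TT : ℕ × ℕ → Finset (ℕ × ℕ) := fun q => WP G D K K' (s / L) (s' / L) (ε q)
    (ν / 2 ^ G.w K + (R - 1) * δ q)
  have hsd := hG.sd K (G.q K) hK le_rfl
  have hlt : ∀ u ∈ G.Sd (G.l K), u < L := fun u hu => hsd.lt u hu
  have hε : ∀ q ∈ P0, ε q < 2 ∧ (q.2 + s') / L = s' / L + ε q := by
    intro q hq
    have h1 := hlt q.2 (Finset.mem_product.mp (Finset.mem_filter.mp hq).1).2
    obtain ⟨e, he, he'⟩ := div_step (s := s') hL0 h1
    have : ε q = e := by show (q.2 + s') / L - s' / L = e; omega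
    rw [this]
    exact ⟨he, he'⟩
  have hδ : ∀ q ∈ P0, δ q < 3 ∧ (q.1 + s) / L + ((q.1 + s) % L + (q.2 + s') % L) / L =
      s / L + δ q := by
    intro q hq
    have h1 := hlt q.1 (Finset.mem_product.mp (Finset.mem_filter.mp hq).1).1
    obtain ⟨e, he, he'⟩ := div_step (s := s) hL0 h1
    have h2 : ((q.1 + s) % L + (q.2 + s') % L) / L < 2 := by
      rw [Nat.div_lt_iff_lt_mul hL0]
      have a1 := Nat.mod_lt (q.1 + s) hL0
      have a2 := Nat.mod_lt (q.2 + s') hL0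
      omega
    have h3 : δ q = (q.1 + s) / L - s / L + ((q.1 + s) % L + (q.2 + s') % L) / L := rfl
    constructor
    · omega
    · omega
  let φ : List ℕ × List ℕ → (_ : ℕ × ℕ) × (ℕ × ℕ) := fun p =>
    ⟨((p.1.headD 0).unpair.1, (p.2.headD 0).unpair.1),
      ((p.1.headD 0).unpair.2, (p.2.headD 0).unpair.2)⟩
  have h1 : cnt [zn G D K] [zn G D K'] h h' ν ≤ (P0.sigma TT).card := by
    unfold cnt
    refine card_le_card_of_injOn φ ?_ ?_
    · intro p hp
      rw [mem_coe, mem_filter, mem_product] at hp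
      obtain ⟨⟨hp1, hp2⟩, hp3⟩ := hp
      obtain ⟨x, hx, hxV⟩ := mem_Vs_single.mp hp1
      obtain ⟨x', hx', hxV'⟩ := mem_Vs_single.mp hp2
      rw [mem_zn_V] at hxV hxV'
      rw [hx, hx'] at hp3
      have v1 : Pool.Agent.E2.val [zn G D K] h [x] =
          2 ^ G.q K * ((x.unpair.1 + 2 ^ G.l K * x.unpair.2 + h []) % 2 ^ (zn G D K).len) + 0 := rfl
      have v2 : Pool.Agent.E2.val [zn G D K'] h' [x'] =
          2 ^ G.q K' * ((x'.unpair.1 + 2 ^ G.l K' * x'.unpair.2 + h' []) %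
            2 ^ (zn G D K').len) + 0 := rfl
      rw [v1, v2, len_zn hG hK, len_zn hG hK', hl, ← hq, pow_add, pow_add, add_zero, add_zero] at hp3
      obtain ⟨k1, k2⟩ := arith0 (L := 2 ^ G.l K) (R := 2 ^ G.ρ K) (R' := 2 ^ G.ρ K')
        (P := 2 ^ G.q K) (by positivity) (by positivity) hp3
      rw [hl] at hxV'
      have hmem : (x.unpair.1, x'.unpair.1) ∈ P0 := by
        rw [Finset.mem_filter, Finset.mem_product]
        exact ⟨⟨hxV.1, hxV'.1⟩, k1⟩
      rw [mem_coe, mem_sigma]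
      simp only [φ, hx, hx', List.headD_cons]
      refine ⟨hmem, ?_⟩
      show (x.unpair.2, x'.unpair.2) ∈ WP G D K K' (s / L) (s' / L) (ε _) _
      unfold WP
      rw [Finset.mem_filter, Finset.mem_product]
      refine ⟨⟨hxV.2, hxV'.2⟩, ?_⟩
      obtain ⟨e1, e2⟩ := hε _ hmem
      obtain ⟨d1, d2⟩ := hδ _ hmem
      simp only at e2 d2
      apply sub_mod_iff hR0
      rw [hwq, ← Nat.div_div_eq_div_mul]
      rw [← k2]
      congr 1
      have e3 : x'.unpair.2 + s' / L + ε (x.unpair.1, x'.unpair.1) =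
          x'.unpair.2 + (x'.unpair.1 + s') / L := by omega
      rw [e3]
      show x.unpair.2 + s / L + (x'.unpair.2 + (x'.unpair.1 + s') / L) % R' +
        δ (x.unpair.1, x'.unpair.1) = x.unpair.2 + (x.unpair.1 + s) / L +
        (x'.unpair.2 + (x'.unpair.1 + s') / L) % R' +
        ((x.unpair.1 + s) % L + (x'.unpair.1 + s') % L) / L
      omega
    · intro p hp p' hp' e
      rw [mem_coe, mem_filter, mem_product] at hp hp'
      obtain ⟨⟨hp1, hp2⟩, hp3⟩ := hp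
      obtain ⟨⟨hq1, hq2⟩, hq3⟩ := hp'
      obtain ⟨x, hx, hxV⟩ := mem_Vs_single.mp hp1
      obtain ⟨x', hx', hxV'⟩ := mem_Vs_single.mp hp2
      obtain ⟨y, hy, hyV⟩ := mem_Vs_single.mp hq1
      obtain ⟨y', hy', hyV'⟩ := mem_Vs_single.mp hq2
      simp only [φ, hx, hx', hy, hy', List.headD_cons, Sigma.mk.injEq, Prod.mk.injEq,
        heq_eq_eq] at e
      have h2 : x = y := by
        rw [← Nat.pair_unpair x, ← Nat.pair_unpair y, e.1.1, e.2.1]
      have h3 : x' = y' := by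
        rw [← Nat.pair_unpair x', ← Nat.pair_unpair y', e.1.2, e.2.2]
      exact Prod.ext (by rw [hx, hy, h2]) (by rw [hx', hy', h3])
  refine h1.trans ?_
  rw [card_sigma]
  have h2 : ∀ q ∈ P0, (TT q).card ≤ ∑ x ∈ range 2 ×ˢ range 3, (WP G D K K' (s / L)
      (h' [] / 2 ^ G.l K') x.1 (ν / 2 ^ G.w K + (R - 1) * x.2)).card := by
    intro q hq
    have hmem : (ε q, δ q) ∈ range 2 ×ˢ range 3 := Finset.mem_product.mpr
      ⟨Finset.mem_range.mpr (hε q hq).1, Finset.mem_range.mpr (hδ q hq).1⟩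
    rw [hl]
    exact Finset.single_le_sum (f := fun x => (WP G D K K' (s / L) (s' / L) x.1
      (ν / 2 ^ G.w K + (R - 1) * x.2)).card) (fun _ _ => Nat.zero_le _) hmem
  have h3 : P0.card ≤ 8 := pair_shift hsd _ _
  calc ∑ q ∈ P0, (TT q).card ≤ ∑ q ∈ P0, _ := sum_le_sum h2
    _ = P0.card * _ := by rw [sum_const, smul_eq_mul]
    _ ≤ 8 * _ := Nat.mul_le_mul_right _ h3

/-- pairs for two different scales with the same zone bottom -/
theorem sum_WP_ne (hG : G.Ok) {D : ℕ → Dt}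
    (hD : ∀ K, G.K0 ≤ K → PH G D K ∧ PS G D K ∧ PT G D K) {K K' : ℕ} (hn : G.Near K K')
    (hT : G.isT K ∨ G.isT K') (hne : K' ≠ K) (hq : G.q K = G.q K') {L : Finset (ℕ × ℕ)}
    (hL : L ∈ G.LF K K') (μ ε n : ℕ) (hε : ε < 2) :
    ∑ a ∈ Lam G D K K' L μ, (WP G D K K' (Sh G D K a.2.1) (Sh G D K' a.2.2) ε n).card ≤
      100 * G.A K * (G.b K * G.b K) := by
  classical
  have hK' : G.K0 ≤ K' := hn.1
  have hK : G.K0 ≤ K := hn.1.trans hn.2.1
  obtain ⟨hPH, hPS, hPT⟩ := hD K hK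
  obtain ⟨hPH', hPS', hPT'⟩ := hD K' hn.1
  have hρ : G.ρ K' ≤ G.ρ K := by
    have e1 : G.w K' = G.w K := by unfold Geo.w; rw [hq]
    have e2 : G.ρ K' = K' - G.w K' := rfl
    have e3 : G.ρ K = K - G.w K := rfl
    have := hn.2.1
    omega
  have hR0 : 0 < 2 ^ G.ρ K := by positivity
  have hRR : 2 ^ G.ρ K' ≤ 2 ^ G.ρ K := Nat.pow_le_pow_right (by norm_num) hρ
  let r : (ℕ × ℕ) × (ℕ × ℕ) → ℕ → Prop := fun a t => ∃ t' ∈ (D K').T,
    (t + Sh G D K a.2.1 + (t' + Sh G D K' a.2.2 + ε) % 2 ^ G.ρ K') % 2 ^ G.ρ K = n % 2 ^ G.ρ K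
  -- `t'` is determined
  have h1 : ∀ a ∈ Lam G D K K' L μ,
      (WP G D K K' (Sh G D K a.2.1) (Sh G D K' a.2.2) ε n).card ≤
        ((D K).T.bipartiteAbove r a).card := by
    intro a _
    refine card_le_card_of_injOn Prod.fst ?_ ?_
    · intro p hp
      rw [mem_coe, WP, mem_filter, mem_product] at hp
      rw [mem_coe, Finset.bipartiteAbove, mem_filter]
      exact ⟨hp.1.1, p.2, hp.1.2, hp.2⟩
    · intro p hp p' hp' e
      rw [mem_coe, WP, mem_filter, mem_product] at hp hp'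
      obtain ⟨⟨_, h2⟩, h3⟩ := hp
      obtain ⟨⟨_, h2'⟩, h3'⟩ := hp'
      have e1 : p.1 = p'.1 := e
      rw [e1] at h3
      have e2 : (p.2 + Sh G D K' a.2.2 + ε) % 2 ^ G.ρ K' =
          (p'.2 + Sh G D K' a.2.2 + ε) % 2 ^ G.ρ K' := by
        have e3 := Nat.ModEq.add_left_cancel' (p'.1 + Sh G D K a.2.1)
          (show _ ≡ _ [MOD 2 ^ G.ρ K] from h3.trans h3'.symm)
        have a1 : (p.2 + Sh G D K' a.2.2 + ε) % 2 ^ G.ρ K' < 2 ^ G.ρ K' :=
          Nat.mod_lt _ (by positivity)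
        have a2 : (p'.2 + Sh G D K' a.2.2 + ε) % 2 ^ G.ρ K' < 2 ^ G.ρ K' :=
          Nat.mod_lt _ (by positivity)
        exact e3.eq_of_lt_of_lt (by omega) (by omega)
      have e4 : p.2 ≡ p'.2 [MOD 2 ^ G.ρ K'] :=
        Nat.ModEq.add_right_cancel' (Sh G D K' a.2.2 + ε) (by
          rw [← add_assoc, ← add_assoc]; exact e2)
      exact Prod.ext e1 (e4.eq_of_lt_of_lt (hPT'.lt _ h2) (hPT'.lt _ h2'))
  refine (sum_le_sum h1).trans ?_
  rw [Finset.sum_card_bipartiteAbove_eq_sum_card_bipartiteBelow]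
  -- the `t` which are hit
  let TS : Finset ℕ := (D K).T.filter (fun t => ∃ a ∈ Lam G D K K' L μ, r a t)
  have hTS : TS.card ≤ 100 * G.A K := by
    refine le_trans (card_le_card ?_) (hPT.t0 K' hn hT hne hq L hL μ n ε hε)
    intro t ht
    obtain ⟨h2, a, ha, t', ht', h3⟩ := mem_filter.mp ht
    exact mem_filter.mpr ⟨h2, a, ha, t', ht', h3⟩
  have h2 : ∀ t ∈ (D K).T, ((Lam G D K K' L μ).bipartiteBelow r t).card ≤ G.b K * G.b K := by
    intro t _
    let OM : Finset ℕ := (G.Sd (G.lO K)).filter (fun ω => ∃ a ∈ Lam G D K K' L μ, a.2.1 = ω ∧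
      ∃ t' ∈ (D K').T, (Sh G D K ω + (t' + Sh G D K' a.2.2 + ε) % 2 ^ G.ρ K') % 2 ^ G.ρ K =
        (n + (2 ^ G.ρ K - 1) * t) % 2 ^ G.ρ K)
    have hOM : OM.card < G.b K :=
      hPS.s0 K' hn hT hne hq L hL μ (n + (2 ^ G.ρ K - 1) * t) ε hε
    have hsub : (Lam G D K K' L μ).bipartiteBelow r t ⊆
        (Lam G D K K' L μ).filter (fun a => a.2.1 ∈ OM) := by
      intro a ha
      rw [Finset.bipartiteBelow, mem_filter] at ha
      obtain ⟨ha1, t', ht', h3⟩ := ha
      have ha2 : a.2.1 ∈ G.Sd (G.lO K) := by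
        have := ha1
        rw [Lam, mem_filter, mem_product, mem_product] at this
        exact this.1.2.1
      rw [mem_filter]
      refine ⟨ha1, mem_filter.mpr ⟨ha2, a, ha1, rfl, t', ht', ?_⟩⟩
      apply sub_mod_iff hR0
      rw [← h3]
      congr 1
      ring
    exact (card_le_card hsub).trans ((card_lam_le hG hn hPH hPH' hne hT hL μ OM).trans
      (Nat.mul_le_mul_left _ hOM.le))
  calc ∑ t ∈ (D K).T, ((Lam G D K K' L μ).bipartiteBelow r t).card
      = ∑ t ∈ TS, ((Lam G D K K' L μ).bipartiteBelow r t).card := by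
        rw [Finset.sum_filter]
        refine sum_congr rfl (fun t _ => ?_)
        split_ifs with h
        · rfl
        · rw [Finset.card_eq_zero, Finset.eq_empty_iff_forall_notMem]
          intro a ha
          rw [Finset.bipartiteBelow, mem_filter] at ha
          exact h ⟨a, ha.1, ha.2⟩
    _ ≤ ∑ t ∈ TS, G.b K * G.b K := sum_le_sum (fun t ht => h2 t (mem_filter.mp ht).1)
    _ = TS.card * (G.b K * G.b K) := by rw [sum_const, smul_eq_mul]
    _ ≤ 100 * G.A K * (G.b K * G.b K) := Nat.mul_le_mul_right _ hTS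

/-- pairs for a scale with itself -/
theorem sum_WP_self (_hG : G.Ok) {D : ℕ → Dt}
    (hD : ∀ K, G.K0 ≤ K → PH G D K ∧ PS G D K ∧ PT G D K) {K : ℕ} (hK : G.K0 ≤ K)
    (hT : G.isT K) {L : Finset (ℕ × ℕ)} (hL : L ∈ G.LF K K) (μ ε n : ℕ) :
    ∑ a ∈ Lam G D K K L μ, (WP G D K K (Sh G D K a.2.1) (Sh G D K a.2.2) ε n).card ≤
      200 * G.A K * G.b K * (100 * G.b K ^ 2) := by
  classical
  obtain ⟨hPH, hPS, hPT⟩ := hD K hK
  have hR0 : 0 < 2 ^ G.ρ K := by positivity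
  let r : (ℕ × ℕ) × (ℕ × ℕ) → ℕ × ℕ → Prop := fun a p =>
    (p.1 + p.2 + Sh G D K a.2.1 + Sh G D K a.2.2) % 2 ^ G.ρ K =
      (n + (2 ^ G.ρ K - 1) * ε) % 2 ^ G.ρ K
  have h1 : ∀ a ∈ Lam G D K K L μ,
      (WP G D K K (Sh G D K a.2.1) (Sh G D K a.2.2) ε n).card ≤
        (((D K).T ×ˢ (D K).T).bipartiteAbove r a).card := by
    intro a _
    refine card_le_card ?_
    intro p hp
    rw [WP, mem_filter] at hp
    rw [Finset.bipartiteAbove, mem_filter]
    refine ⟨hp.1, ?_⟩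
    apply sub_mod_iff hR0
    rw [← hp.2, Nat.add_mod_mod]
    congr 1
    ring
  refine (sum_le_sum h1).trans ?_
  rw [Finset.sum_card_bipartiteAbove_eq_sum_card_bipartiteBelow]
  let TS : Finset (ℕ × ℕ) := ((D K).T ×ˢ (D K).T).filter (fun p =>
    ∃ a ∈ Lam G D K K L μ, r a p)
  have hTS : TS.card ≤ 200 * G.A K * G.b K := by
    refine le_trans (card_le_card ?_) (hPT.self hT L hL μ (n + (2 ^ G.ρ K - 1) * ε))
    intro p hp
    obtain ⟨h2, a, ha, h3⟩ := mem_filter.mp hp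
    exact mem_filter.mpr ⟨h2, a, ha, h3⟩
  have h2 : ∀ p ∈ (D K).T ×ˢ (D K).T,
      ((Lam G D K K L μ).bipartiteBelow r p).card ≤ 100 * G.b K ^ 2 := by
    intro p _
    refine le_trans (card_le_card ?_) (hPS.self hT L hL μ
      (n + (2 ^ G.ρ K - 1) * ε + (2 ^ G.ρ K - 1) * (p.1 + p.2)))
    intro a ha
    rw [Finset.bipartiteBelow, mem_filter] at ha
    rw [mem_filter]
    refine ⟨ha.1, ?_⟩
    apply sub_mod_iff hR0
    rw [← ha.2]
    congr 1
    ring
  calc ∑ p ∈ (D K).T ×ˢ (D K).T, ((Lam G D K K L μ).bipartiteBelow r p).card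
      = ∑ p ∈ TS, ((Lam G D K K L μ).bipartiteBelow r p).card := by
        rw [Finset.sum_filter]
        refine sum_congr rfl (fun p _ => ?_)
        split_ifs with h
        · rfl
        · rw [Finset.card_eq_zero, Finset.eq_empty_iff_forall_notMem]
          intro a ha
          rw [Finset.bipartiteBelow, mem_filter] at ha
          exact h ⟨a, ha.1, ha.2⟩
    _ ≤ ∑ p ∈ TS, 100 * G.b K ^ 2 := sum_le_sum (fun p hp => h2 p (mem_filter.mp hp).1)
    _ = TS.card * (100 * G.b K ^ 2) := by rw [sum_const, smul_eq_mul]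
    _ ≤ 200 * G.A K * G.b K * (100 * G.b K ^ 2) := Nat.mul_le_mul_right _ hTS

/-- **Top theorem with lists**, equal zone bottoms. -/
theorem top_list0 (hG : G.Ok) {D : ℕ → Dt}
    (hD : ∀ K, G.K0 ≤ K → PH G D K ∧ PS G D K ∧ PT G D K) {K K' : ℕ} (hn : G.Near K K')
    (hT : G.isT K ∨ G.isT K') (hq : G.q K = G.q K') {L : Finset (ℕ × ℕ)}
    (hL : L ∈ G.LF K K') (μ ν : ℕ) (f : (ℕ × ℕ) × (ℕ × ℕ) → ℕ)
    (hf : ∀ a ∈ Lam G D K K' L μ, ∃ h h' : Hash,
      (∀ y ∈ Vs (cl G (G.q K') 0), nexts (cl G (G.q K') 0) h y [] = (D K).S a.2.1) ∧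
      h' [] = (D K').S a.2.2 ∧
      f a ≤ cnt (cl G (G.q K') 0 ++ [zn G D K]) [zn G D K'] h h' ν) :
    ∑ a ∈ Lam G D K K' L μ, f a ≤ 10 ^ 6 * G.A K * G.b K ^ 3 := by
  classical
  have hK : G.K0 ≤ K := hn.1.trans hn.2.1
  have hb : 100 ≤ G.b K := hG.b_pos K hK
  have h1 : ∀ a ∈ Lam G D K K' L μ, f a ≤ 8 * ∑ x ∈ range 2 ×ˢ range 3,
      (WP G D K K' (Sh G D K a.2.1) (Sh G D K' a.2.2) x.1
        (ν / 2 ^ G.w K + (2 ^ G.ρ K - 1) * x.2)).card := by
    intro a ha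
    obtain ⟨h, h', h2, h3, h4⟩ := hf a ha
    have h5 : h [] = (D K).S a.2.1 := h2 [] (by simp [cl])
    have h6 := cnt_zone0 hG (D := D) hn hq h h' ν
    rw [h5, h3] at h6
    exact h4.trans h6
  have h2 : ∀ x ∈ range 2 ×ˢ range 3, ∑ a ∈ Lam G D K K' L μ,
      (WP G D K K' (Sh G D K a.2.1) (Sh G D K' a.2.2) x.1
        (ν / 2 ^ G.w K + (2 ^ G.ρ K - 1) * x.2)).card ≤ 20000 * G.A K * G.b K ^ 3 := by
    intro x hx
    by_cases hne : K' = K
    · subst hne
      have hT' : G.isT K' := hT.elim id id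
      calc _ ≤ 200 * G.A K' * G.b K' * (100 * G.b K' ^ 2) :=
            sum_WP_self hG hD hK hT' hL μ x.1 _
        _ = 20000 * G.A K' * G.b K' ^ 3 := by ring
    · calc _ ≤ 100 * G.A K * (G.b K * G.b K) :=
            sum_WP_ne hG hD hn hT hne hq hL μ x.1 _
              (Finset.mem_range.mp (Finset.mem_product.mp hx).1)
        _ ≤ 20000 * G.A K * (G.b K * G.b K) * G.b K := by
            have : 100 * G.A K * (G.b K * G.b K) ≤ 20000 * G.A K * (G.b K * G.b K) :=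
              Nat.mul_le_mul_right _ (Nat.mul_le_mul_right _ (by norm_num))
            exact this.trans (Nat.le_mul_of_pos_right _ (by omega))
        _ = 20000 * G.A K * G.b K ^ 3 := by ring
  calc ∑ a ∈ Lam G D K K' L μ, f a
      ≤ ∑ a ∈ Lam G D K K' L μ, 8 * ∑ x ∈ range 2 ×ˢ range 3,
        (WP G D K K' (Sh G D K a.2.1) (Sh G D K' a.2.2) x.1
          (ν / 2 ^ G.w K + (2 ^ G.ρ K - 1) * x.2)).card := sum_le_sum h1
    _ = 8 * ∑ x ∈ range 2 ×ˢ range 3, ∑ a ∈ Lam G D K K' L μ,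
        (WP G D K K' (Sh G D K a.2.1) (Sh G D K' a.2.2) x.1
          (ν / 2 ^ G.w K + (2 ^ G.ρ K - 1) * x.2)).card := by
        rw [← Finset.mul_sum, Finset.sum_comm]
    _ ≤ 8 * ∑ x ∈ range 2 ×ˢ range 3, 20000 * G.A K * G.b K ^ 3 :=
        Nat.mul_le_mul_left _ (sum_le_sum h2)
    _ = 8 * (6 * (20000 * G.A K * G.b K ^ 3)) := by
        rw [sum_const, card_product, card_range, card_range, smul_eq_mul]
    _ ≤ 10 ^ 6 * G.A K * G.b K ^ 3 := by
        have : 8 * (6 * (20000 * G.A K * G.b K ^ 3)) = 960000 * (G.A K * G.b K ^ 3) := by ring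
        rw [this, mul_assoc]
        exact Nat.mul_le_mul_right _ (by norm_num)

end Pool.Agent.Helper70.E2
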