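import Pool.Agent.Helper70.E2.StepH

/-!
# Step S of the local choice
-/

set_option autoImplicit false

namespace Pool.Agent.E2

open Finset

variable {G : Geo}

theorem PH_congr {D D₂ : ℕ → Dt} {K : ℕ} (h : ∀ K' ≤ K, D K' = D₂ K') (hP : PH G D K) :
    PH G D₂ K := by
  refine ⟨?_, ?_, ?_, ?_⟩
  · intro hT
    rw [← h K le_rfl]
    exact hP.zero hT
  · intro hT Q hQ x
    rw [← h K le_rfl]
    exact hP.own hT Q hQ x
  · intro K' hn hT hT' hne L hL x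
    rw [← h K le_rfl, ← h K' hn.2.1]
    exact hP.two K' hn hT hT' hne L hL x
  · intro hT L hL x
    rw [← h K le_rfl]
    exact hP.self hT L hL x

theorem Lam_mod {D : ℕ → Dt} {K K' : ℕ} (L : Finset (ℕ × ℕ)) (μ : ℕ) :
    Lam G D K K' L (μ % 2 ^ G.lO K) = Lam G D K K' L μ := by
  unfold Lam
  rw [Nat.mod_mod]

/-- geometry of the zone -/
theorem geo_zone (hG : G.Ok) {K : ℕ} (hK : G.K0 ≤ K) :
    G.q K ≤ G.w K ∧ G.w K ≤ K ∧ K - G.q K = G.l K + G.ρ K ∧ 8 * G.d K ≤ G.ρ K ∧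
      8 * G.d K ≤ G.l K ∧ K - G.q K ≤ 3 * G.l1 K := by
  have h1 : G.w K = G.q K + G.l K := rfl
  have h2 : G.nx (G.w K) = G.w K + G.ln (G.w K) := rfl
  have h3 : G.nx (G.nx (G.w K)) = G.nx (G.w K) + G.ln (G.nx (G.w K)) := rfl
  have h4 := hG.lo K hK
  have h5 := hG.hi K hK
  have h6 := hG.ln_low K (G.w K) hK (by omega)
  have h7 := hG.ln_low K (G.q K) hK le_rfl
  have h8 := hG.ln_high K (G.w K) hK (by omega)
  have h9 := hG.ln_high K (G.q K) hK (by omega)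
  have h10 := hG.ln_high K (G.nx (G.w K)) hK h4
  have h11 : G.l K = G.ln (G.q K) := rfl
  have h12 : G.ρ K = K - G.w K := rfl
  refine ⟨by omega, by omega, by omega, by omega, by omega, by omega⟩

open Classical in
/-- tests, same zone bottom -/
noncomputable def tS0 (G : Geo) (D : ℕ → Dt) (K K' : ℕ) (L : Finset (ℕ × ℕ)) (μ n ε : ℕ) : Tst :=
  (((Lam G D K K' L μ).image (fun a => a.2.1)).image (fun x => (x, x)), fun p v _ =>
    ∃ a ∈ Lam G D K K' L μ, a.2.1 = p.1 ∧ ∃ t' ∈ (D K').T,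
      (v / 2 ^ G.l K + (t' + Sh G D K' a.2.2 + ε) % 2 ^ G.ρ K') % 2 ^ G.ρ K = n % 2 ^ G.ρ K)

open Classical in
/-- tests, consecutive zones -/
noncomputable def tS1 (G : Geo) (D : ℕ → Dt) (K K' : ℕ) (L : Finset (ℕ × ℕ)) (μ n ε : ℕ) : Tst :=
  (((Lam G D K K' L μ).image (fun a => a.2.1)).image (fun x => (x, x)), fun p v _ =>
    ∃ a ∈ Lam G D K K' L μ, a.2.1 = p.1 ∧ ∃ u ∈ G.Sd (G.l K), ∃ t' ∈ (D K').T,
      (u + v + (t' + Sh G D K' a.2.2 + ε) % 2 ^ G.ρ K') % 2 ^ (K - G.q K) =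
        n % 2 ^ (K - G.q K))

open Classical in
/-- tests, survivors -/
noncomputable def tS2 (G : Geo) (D : ℕ → Dt) (K K' : ℕ) (L : Finset (ℕ × ℕ)) (μ n : ℕ) : Tst :=
  (((Lam G D K K' L μ).image (fun a => a.2.1)).image (fun x => (x, x)), fun p v _ =>
    (∃ a ∈ Lam G D K K' L μ, a.2.1 = p.1) ∧ v / 2 ^ G.l K % 2 ^ G.ρ K = n % 2 ^ G.ρ K)

open Classical in
/-- tests of a scale with itself -/
noncomputable def tS3 (G : Geo) (D : ℕ → Dt) (K : ℕ) (L : Finset (ℕ × ℕ)) (μ n : ℕ) : Tst :=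
  ((Lam G D K K L μ).image (fun a => a.2), fun _ v v' =>
    (v / 2 ^ G.l K + v' / 2 ^ G.l K) % 2 ^ G.ρ K = n % 2 ^ G.ρ K)

/-- all tests for step S -/
def PPS (G : Geo) (D : ℕ → Dt) (K : ℕ) (I0 I1 I2 I3 : Finset ℕ) : Set Tst :=
  ({t | ∃ K' ∈ I0, t ∈ {t | ∃ L ∈ G.LF K K', t ∈ {t | ∃ μ ∈ range (2 ^ G.lO K),
    t ∈ {t | ∃ n ∈ range (2 ^ G.ρ K), t ∈ {t | ∃ ε ∈ range 2,
      t ∈ {y | y = tS0 G D K K' L μ n ε}}}}}} ∪
  {t | ∃ K' ∈ I1, t ∈ {t | ∃ L ∈ G.LF K K', t ∈ {t | ∃ μ ∈ range (2 ^ G.lO K),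
    t ∈ {t | ∃ n ∈ range (2 ^ (K - G.q K)), t ∈ {t | ∃ ε ∈ range 2,
      t ∈ {y | y = tS1 G D K K' L μ n ε}}}}}}) ∪
  ({t | ∃ K' ∈ I2, t ∈ {t | ∃ L ∈ G.LF K K', t ∈ {t | ∃ μ ∈ range (2 ^ G.lO K),
    t ∈ {t | ∃ n ∈ range (2 ^ G.ρ K), t ∈ {y | y = tS2 G D K K' L μ n}}}}} ∪
  {t | ∃ K' ∈ I3, t ∈ {t | ∃ L ∈ G.LF K K', t ∈ {t | ∃ μ ∈ range (2 ^ G.lO K),
    t ∈ {t | ∃ n ∈ range (2 ^ G.ρ K), t ∈ {y | y = tS3 G D K L μ n}}}}})

theorem few_PPS (hG : G.Ok) (D : ℕ → Dt) {K : ℕ} (hK : G.K0 ≤ K) (I0 I1 I2 I3 : Finset ℕ)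
    (h0 : ∀ K' ∈ I0, G.Near K K') (h1 : ∀ K' ∈ I1, G.Near K K') (h2 : ∀ K' ∈ I2, G.Near K K')
    (h3 : ∀ K' ∈ I3, G.Near K K') :
    Few (PPS G D K I0 I1 I2 I3) (2 ^ (G.E K + 5 * G.l1 K + 3)) := by
  obtain ⟨z1, z2, z3, z4, z5, z6⟩ := geo_zone hG hK
  have hl : (range (2 ^ G.lO K)).card ≤ 2 ^ G.l1 K := by
    rw [Finset.card_range]
    exact Nat.pow_le_pow_right (by norm_num) (hG.lO_high K hK)
  have hr : (range (2 ^ G.ρ K)).card ≤ 2 ^ (3 * G.l1 K) := by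
    rw [Finset.card_range]
    exact Nat.pow_le_pow_right (by norm_num) (by omega)
  have hr' : (range (2 ^ (K - G.q K))).card ≤ 2 ^ (3 * G.l1 K) := by
    rw [Finset.card_range]
    exact Nat.pow_le_pow_right (by norm_num) z6
  have h2r : (range 2).card ≤ 2 := by simp
  have a0 := Few.ex I0 (fun K' => {t | ∃ L ∈ G.LF K K', t ∈ {t | ∃ μ ∈ range (2 ^ G.lO K),
    t ∈ {t | ∃ n ∈ range (2 ^ G.ρ K), t ∈ {t | ∃ ε ∈ range 2,
      t ∈ {y | y = tS0 G D K K' L μ n ε}}}}}) ((card_near_le G K I0 h0).trans (hG.g_le K hK))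
    (fun K' hK' => Few.ex _ _ (hG.card_LF K K' (h0 K' hK')) (fun L _ => Few.ex _ _ hl
      (fun μ _ => Few.ex _ _ hr (fun n _ => Few.ex _ _ h2r (fun ε _ => Few.single _)))))
  have a1 := Few.ex I1 (fun K' => {t | ∃ L ∈ G.LF K K', t ∈ {t | ∃ μ ∈ range (2 ^ G.lO K),
    t ∈ {t | ∃ n ∈ range (2 ^ (K - G.q K)), t ∈ {t | ∃ ε ∈ range 2,
      t ∈ {y | y = tS1 G D K K' L μ n ε}}}}}) ((card_near_le G K I1 h1).trans (hG.g_le K hK))
    (fun K' hK' => Few.ex _ _ (hG.card_LF K K' (h1 K' hK')) (fun L _ => Few.ex _ _ hl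
      (fun μ _ => Few.ex _ _ hr' (fun n _ => Few.ex _ _ h2r (fun ε _ => Few.single _)))))
  have a2 := Few.ex I2 (fun K' => {t | ∃ L ∈ G.LF K K', t ∈ {t | ∃ μ ∈ range (2 ^ G.lO K),
    t ∈ {t | ∃ n ∈ range (2 ^ G.ρ K), t ∈ {y | y = tS2 G D K K' L μ n}}}})
    ((card_near_le G K I2 h2).trans (hG.g_le K hK))
    (fun K' hK' => Few.ex _ _ (hG.card_LF K K' (h2 K' hK')) (fun L _ => Few.ex _ _ hl
      (fun μ _ => Few.ex _ _ hr (fun n _ => Few.single _))))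
  have a3 := Few.ex I3 (fun K' => {t | ∃ L ∈ G.LF K K', t ∈ {t | ∃ μ ∈ range (2 ^ G.lO K),
    t ∈ {t | ∃ n ∈ range (2 ^ G.ρ K), t ∈ {y | y = tS3 G D K L μ n}}}})
    ((card_near_le G K I3 h3).trans (hG.g_le K hK))
    (fun K' hK' => Few.ex _ _ (hG.card_LF K K' (h3 K' hK')) (fun L _ => Few.ex _ _ hl
      (fun μ _ => Few.ex _ _ hr (fun n _ => Few.single _))))
  refine ((a0.union a1).union (a2.union a3)).mono (fun t ht => ht) ?_
  have e0 : 2 ^ G.l1 K * (2 ^ G.E K * (2 ^ G.l1 K * (2 ^ (3 * G.l1 K) * (2 * 1)))) =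
      2 * 2 ^ (G.E K + 5 * G.l1 K) := by
    have : G.E K + 5 * G.l1 K = G.l1 K + G.E K + G.l1 K + 3 * G.l1 K := by ring
    rw [this, pow_add, pow_add, pow_add]; ring
  have e2 : 2 ^ G.l1 K * (2 ^ G.E K * (2 ^ G.l1 K * (2 ^ (3 * G.l1 K) * 1))) =
      2 ^ (G.E K + 5 * G.l1 K) := by
    have : G.E K + 5 * G.l1 K = G.l1 K + G.E K + G.l1 K + 3 * G.l1 K := by ring
    rw [this, pow_add, pow_add, pow_add]; ring
  have e3 : 2 ^ (G.E K + 5 * G.l1 K + 3) = 8 * 2 ^ (G.E K + 5 * G.l1 K) := by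
    rw [pow_add]; ring
  rw [e0, e2, e3]
  omega

/-- numbers: the hit values are few -/
theorem hit_num (hG : G.Ok) {K : ℕ} (hK : G.K0 ≤ K) {c e : ℕ} (hc : c ≤ 3 * G.b K)
    (he : e + 4 * G.d K ≤ K - G.q K) : c * 2 ^ e ≤ 2 ^ (K - G.q K - 2 * G.d K) := by
  have h1 := hG.numd K hK
  have h2 := hG.b_le K hK
  have h3 := hG.d_pos K hK
  calc c * 2 ^ e ≤ 2 ^ G.d K * 2 ^ e :=
        Nat.mul_le_mul_right _ (le_two_pow_d hG hK (by omega))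
    _ = 2 ^ (G.d K + e) := (pow_add _ _ _).symm
    _ ≤ 2 ^ (K - G.q K - 2 * G.d K) := Nat.pow_le_pow_right (by norm_num) (by omega)

/-- the events of a test are few -/
theorem ev_num (hG : G.Ok) {D : ℕ → Dt} {K K' : ℕ} (hn : G.Near K K') {L : Finset (ℕ × ℕ)}
    (hL : L ∈ G.LF K K') (μ : ℕ) {X : Type*} [DecidableEq X] (φ : (ℕ × ℕ) × (ℕ × ℕ) → X) :
    ((Lam G D K K' L μ).image φ).card ≤ 2 ^ G.d K := by
  have hK : G.K0 ≤ K := hn.1.trans hn.2.1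
  apply le_two_pow_d hG hK
  have h1 : ((Lam G D K K' L μ).image φ).card ≤ (Lam G D K K' L μ).card := Finset.card_image_le
  have h2 := card_Lam_le (D := D) (hG.sdO K hK) K' L μ
  have h3 := hG.card_mem K K' hn L hL
  omega

theorem PPS_ok (hG : G.Ok) (D : ℕ → Dt) {K : ℕ} (hK : G.K0 ≤ K) (I0 I1 I2 I3 : Finset ℕ)
    (hg : 0 < G.g K) (hPH : PH G D K) (hPH' : ∀ K', G.K0 ≤ K' → K' < K → PH G D K')
    (hT : ∀ K', G.K0 ≤ K' → K' < K → (D K').T.card = G.N K')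
    (h0 : ∀ K' ∈ I0, G.Near K K' ∧ (G.isT K ∨ G.isT K') ∧ K' ≠ K ∧ G.q K = G.q K')
    (h1 : ∀ K' ∈ I1, G.Near K K' ∧ (G.isT K ∨ G.isT K') ∧ G.q K = G.w K')
    (h2 : ∀ K' ∈ I2, G.Near K K' ∧ (G.isT K ∨ G.isT K') ∧ K' < G.w K)
    (h3 : ∀ K' ∈ I3, K' = K ∧ G.isT K) :
    ∀ t ∈ PPS G D K I0 I1 I2 I3, TOk (K - G.q K) (2 ^ (K - G.q K - 2 * G.d K)) (G.d K) t := by
  classical
  obtain ⟨z1, z2, z3, z4, z5, z6⟩ := geo_zone hG hK
  have hb1 : 100 ≤ G.b K := hG.b_pos K hK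
  have hw : G.w K = G.q K + G.l K := rfl
  have hρ : G.ρ K = K - G.w K := rfl
  have hd : 100 ≤ G.d K := hG.d_pos K hK
  rintro t ((⟨K', hK', L, hL, μ, -, n, -, ε, -, rfl⟩ | ⟨K', hK', L, hL, μ, -, n, -, ε, -, rfl⟩) |
    (⟨K', hK', L, hL, μ, -, n, -, rfl⟩ | ⟨K', hK', L, hL, μ, -, n, -, rfl⟩))
  · obtain ⟨hn, hTT, hne, hq⟩ := h0 K' hK'
    have hlt : K' < K := lt_of_le_of_ne hn.2.1 hne
    have hρ' : G.ρ K' ≤ G.ρ K := by
      have e1 : G.w K' = G.w K := by unfold Geo.w; rw [hq]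
      have e2 : G.ρ K' = K' - G.w K' := rfl
      omega
    refine TOk.diag (P := fun ω v => ∃ a ∈ Lam G D K K' L μ, a.2.1 = ω ∧ ∃ t' ∈ (D K').T,
      (v / 2 ^ G.l K + (t' + Sh G D K' a.2.2 + ε) % 2 ^ G.ρ K') % 2 ^ G.ρ K = n % 2 ^ G.ρ K)
      (ev_num hG hn hL μ _) ?_
    intro ω _ V hV
    have hdeg := ((lam_deg hG hn hPH (hPH' K' hn.1 hlt) hTT hL μ ω).2 hne).1
    refine (card_hit_hi_le (((Lam G D K K' L μ).filter (fun a => a.2.1 = ω)) ×ˢ (D K').T)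
      (G.l K) (G.ρ K) (fun x => (x.2 + Sh G D K' x.1.2.2 + ε) % 2 ^ G.ρ K')
      (fun _ => n % 2 ^ G.ρ K) V ?_).trans ?_
    · intro v hv
      obtain ⟨h4, a, ha, haω, t', ht', h5⟩ := hV v hv
      rw [z3] at h4
      exact ⟨h4, (a, t'), Finset.mem_product.mpr ⟨Finset.mem_filter.mpr ⟨ha, haω⟩, ht'⟩, h5⟩
    · rw [Finset.card_product, hT K' hn.1 hlt]
      have e1 : G.N K' = 2 ^ (G.ρ K' / 2 - 1) := rfl
      rw [e1, mul_assoc, ← pow_add]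
      exact hit_num hG hK (by omega) (by omega)
  · obtain ⟨hn, hTT, hq⟩ := h1 K' hK'
    have hK'0 : G.K0 ≤ K' := hn.1
    obtain ⟨y1, y2, y3, y4, y5, y6⟩ := geo_zone hG hK'0
    have hne : K' ≠ K := by
      rintro rfl
      omega
    have hlt : K' < K := lt_of_le_of_ne hn.2.1 hne
    have hρ' : G.ρ K' ≤ G.l K + G.ρ K := by
      have e2 : G.ρ K' = K' - G.w K' := rfl
      omega
    refine TOk.diag (P := fun ω v => ∃ a ∈ Lam G D K K' L μ, a.2.1 = ω ∧ ∃ u ∈ G.Sd (G.l K),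
      ∃ t' ∈ (D K').T, (u + v + (t' + Sh G D K' a.2.2 + ε) % 2 ^ G.ρ K') % 2 ^ (K - G.q K) =
        n % 2 ^ (K - G.q K))
      (ev_num hG hn hL μ _) ?_
    intro ω _ V hV
    have hdeg := ((lam_deg hG hn hPH (hPH' K' hn.1 hlt) hTT hL μ ω).2 hne).1
    refine (card_hit_le (((Lam G D K K' L μ).filter (fun a => a.2.1 = ω)) ×ˢ
      (G.Sd (G.l K) ×ˢ (D K').T)) (2 ^ (K - G.q K))
      (fun x => x.2.1 + (x.2.2 + Sh G D K' x.1.2.2 + ε) % 2 ^ G.ρ K')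
      (fun _ => n % 2 ^ (K - G.q K)) V ?_).trans ?_
    · intro v hv
      obtain ⟨h4, a, ha, haω, u, hu, t', ht', h5⟩ := hV v hv
      refine ⟨h4, (a, u, t'), Finset.mem_product.mpr ⟨Finset.mem_filter.mpr ⟨ha, haω⟩,
        Finset.mem_product.mpr ⟨hu, ht'⟩⟩, ?_⟩
      rw [← h5]
      congr 1
      show v + (u + (t' + Sh G D K' a.2.2 + ε) % 2 ^ G.ρ K') = _
      ring
    · rw [Finset.card_product, Finset.card_product, hT K' hn.1 hlt]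
      have e1 : G.N K' = 2 ^ (G.ρ K' / 2 - 1) := rfl
      have e2 : (G.Sd (G.l K)).card ≤ 2 ^ (G.l K / 2) := (hG.sd K (G.q K) hK le_rfl).card
      rw [e1]
      calc ((Lam G D K K' L μ).filter (fun a => a.2.1 = ω)).card *
            ((G.Sd (G.l K)).card * 2 ^ (G.ρ K' / 2 - 1))
          ≤ G.b K * (2 ^ (G.l K / 2) * 2 ^ (G.ρ K' / 2 - 1)) :=
            Nat.mul_le_mul hdeg.le (Nat.mul_le_mul_right _ e2)
        _ = G.b K * 2 ^ (G.l K / 2 + (G.ρ K' / 2 - 1)) := by rw [pow_add]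
        _ ≤ 2 ^ (K - G.q K - 2 * G.d K) := hit_num hG hK (by omega) (by omega)
  · obtain ⟨hn, hTT, hq⟩ := h2 K' hK'
    refine TOk.diag (P := fun ω v => (∃ a ∈ Lam G D K K' L μ, a.2.1 = ω) ∧
      v / 2 ^ G.l K % 2 ^ G.ρ K = n % 2 ^ G.ρ K) (ev_num hG hn hL μ _) ?_
    intro ω _ V hV
    refine (card_hit_hi_le ({0} : Finset ℕ) (G.l K) (G.ρ K) (fun _ => 0)
      (fun _ => n % 2 ^ G.ρ K) V ?_).trans ?_
    · intro v hv
      obtain ⟨h4, _, h5⟩ := hV v hv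
      rw [z3] at h4
      exact ⟨h4, 0, Finset.mem_singleton_self _, h5⟩
    · rw [Finset.card_singleton]
      exact hit_num hG hK (by omega) (by omega)
  · obtain ⟨rfl, hTT⟩ := h3 K' hK'
    refine ⟨ev_num hG (near_self hG hK hg) hL μ _, ?_⟩
    intro p _
    refine ⟨fun _ V hV => ?_, fun _ v' _ V hV => ?_⟩
    · refine (card_hit_two_hi_le ({0} : Finset ℕ) (G.l K') (G.ρ K') (fun _ => 0)
        (fun _ => n % 2 ^ G.ρ K') V ?_).trans ?_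
      · intro v hv
        obtain ⟨h4, h5⟩ := hV v hv
        rw [z3] at h4
        exact ⟨h4, 0, Finset.mem_singleton_self _, h5⟩
      · rw [Finset.card_singleton, one_mul]
        exact hit_num hG hK (by omega) (by omega)
    · refine (card_hit_hi_le ({0} : Finset ℕ) (G.l K') (G.ρ K') (fun _ => v' / 2 ^ G.l K')
        (fun _ => n % 2 ^ G.ρ K') V ?_).trans ?_
      · intro v hv
        obtain ⟨h4, h5⟩ := hV v hv
        rw [z3] at h4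
        exact ⟨h4, 0, Finset.mem_singleton_self _, h5⟩
      · rw [Finset.card_singleton]
        exact hit_num hG hK (by omega) (by omega)

/-- **Step S.** -/
theorem step_S (hG : G.Ok) (_hg : ∀ K, G.K0 ≤ K → 0 < G.g K) (D : ℕ → Dt) {K : ℕ}
    (hK : G.K0 ≤ K)
    (hD : ∀ K', G.K0 ≤ K' → K' < K → PH G D K' ∧ PS G D K' ∧ PT G D K') (H : ℕ → ℕ)
    (hH : ∀ S T, PH G (Function.update D K ⟨H, S, T⟩) K) :
    ∃ S, ∀ T, PS G (Function.update D K ⟨H, S, T⟩) K := by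
  classical
  obtain ⟨z1, z2, z3, z4, z5, z6⟩ := geo_zone hG hK
  have hgK := hG.g_pos K hK
  set D0 : ℕ → Dt := Function.update D K ⟨H, fun _ => 0, ∅⟩ with hD0
  have hne0 : ∀ K', K' ≠ K → D0 K' = D K' := fun K' h => Function.update_of_ne h _ _
  have hPH : PH G D0 K := hH _ _
  have hPH' : ∀ K', G.K0 ≤ K' → K' < K → PH G D0 K' := by
    intro K' h1 h2
    exact PH_congr (fun K'' h3 => (hne0 K'' (by omega)).symm) (hD K' h1 h2).1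
  let NT : ℕ → Prop := fun K' => G.Near K K' ∧ (G.isT K ∨ G.isT K')
  let I0 : Finset ℕ := (range (K + 1)).filter (fun K' => NT K' ∧ K' ≠ K ∧ G.q K = G.q K')
  let I1 : Finset ℕ := (range (K + 1)).filter (fun K' => NT K' ∧ G.q K = G.w K')
  let I2 : Finset ℕ := (range (K + 1)).filter (fun K' => NT K' ∧ K' < G.w K)
  let I3 : Finset ℕ := (range (K + 1)).filter (fun K' => K' = K ∧ G.isT K)
  have m0 : ∀ K' ∈ I0, G.Near K K' ∧ (G.isT K ∨ G.isT K') ∧ K' ≠ K ∧ G.q K = G.q K' := by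
    intro K' h
    obtain ⟨_, ⟨h1, h2⟩, h3, h4⟩ := Finset.mem_filter.mp h
    exact ⟨h1, h2, h3, h4⟩
  have m1 : ∀ K' ∈ I1, G.Near K K' ∧ (G.isT K ∨ G.isT K') ∧ G.q K = G.w K' := by
    intro K' h
    obtain ⟨_, ⟨h1, h2⟩, h3⟩ := Finset.mem_filter.mp h
    exact ⟨h1, h2, h3⟩
  have m2 : ∀ K' ∈ I2, G.Near K K' ∧ (G.isT K ∨ G.isT K') ∧ K' < G.w K := by
    intro K' h
    obtain ⟨_, ⟨h1, h2⟩, h3⟩ := Finset.mem_filter.mp h
    exact ⟨h1, h2, h3⟩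
  have m3 : ∀ K' ∈ I3, K' = K ∧ G.isT K := fun K' h => (Finset.mem_filter.mp h).2
  have hex : ∃ f : ℕ → ℕ, (∀ x, f x < 2 ^ (K - G.q K)) ∧
      ∀ t ∈ PPS G D0 K I0 I1 I2 I3, TPass t f (G.b K) := by
    refine exists_rf_few (q := G.d K) (s := G.d K) (b := 2 ^ (K - G.q K - 2 * G.d K))
      (few_PPS hG D0 hK I0 I1 I2 I3 (fun K' h => (m0 K' h).1) (fun K' h => (m1 K' h).1)
        (fun K' h => (m2 K' h).1) (fun K' h => ?_))
      (PPS_ok hG D0 hK I0 I1 I2 I3 hgK hPH hPH' ?_ m0 m1 m2 m3) ?_ ?_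
    · rw [(m3 K' h).1]
      exact near_self hG hK hgK
    · intro K' h1 h2
      rw [hne0 K' (by omega)]
      exact (hD K' h1 h2).2.2.card
    · rw [← pow_add]
      exact Nat.pow_le_pow_right (by norm_num) (by omega)
    · have := hG.numb K hK
      rw [Nat.mul_comm (G.d K)]
      omega
  obtain ⟨f, _, hf⟩ := hex
  have hMμ : 0 < 2 ^ G.lO K := Nat.pow_pos (by norm_num)
  have hMρ : 0 < 2 ^ G.ρ K := Nat.pow_pos (by norm_num)
  have hMq : 0 < 2 ^ (K - G.q K) := Nat.pow_pos (by norm_num)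
  refine ⟨f, fun T => ?_⟩
  set D' : ℕ → Dt := Function.update D K ⟨H, f, T⟩ with hD'
  have hK' : D' K = ⟨H, f, T⟩ := Function.update_self _ _ _
  have hne' : ∀ K', K' ≠ K → D' K' = D0 K' := by
    intro K' h
    rw [hne0 K' h]
    exact Function.update_of_ne h _ _
  have hHe : (D' K).H = (D0 K).H := by rw [hK', hD0, Function.update_self]
  have hlam : ∀ K' L μ, Lam G D' K K' L μ = Lam G D0 K K' L (μ % 2 ^ G.lO K) := by
    intro K' L μ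
    rw [Lam_mod]
    apply Lam_congr hHe
    by_cases h : K' = K
    · rw [h]; exact hHe
    · rw [hne' K' h]
  have hSh : ∀ ω, Sh G D' K ω = f ω / 2 ^ G.l K := by
    intro ω
    unfold Sh
    rw [hK']
  have hShe : ∀ K', K' ≠ K → ∀ ω, Sh G D' K' ω = Sh G D0 K' ω := by
    intro K' h ω
    unfold Sh
    rw [hne' K' h]
  have hS : (D' K).S = f := by rw [hK']
  refine ⟨?_, ?_, ?_, ?_⟩
  · intro K' hn hT hne hq L hL μ n ε hε
    have hI : K' ∈ I0 := Finset.mem_filter.mpr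
      ⟨Finset.mem_range.mpr (Nat.lt_succ_of_le hn.2.1), ⟨hn, hT⟩, hne, hq⟩
    have h1 := hf (tS0 G D0 K K' L (μ % 2 ^ G.lO K) (n % 2 ^ G.ρ K) ε)
      (Or.inl (Or.inl ⟨K', hI, L, hL, μ % 2 ^ G.lO K, Finset.mem_range.mpr (Nat.mod_lt _ hMμ),
        n % 2 ^ G.ρ K, Finset.mem_range.mpr (Nat.mod_lt _ hMρ), ε, Finset.mem_range.mpr hε, rfl⟩))
    apply TPass.diag (P := fun ω v => ∃ a ∈ Lam G D0 K K' L (μ % 2 ^ G.lO K), a.2.1 = ω ∧
      ∃ t' ∈ (D0 K').T, (v / 2 ^ G.l K + (t' + Sh G D0 K' a.2.2 + ε) % 2 ^ G.ρ K') % 2 ^ G.ρ K =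
        n % 2 ^ G.ρ K % 2 ^ G.ρ K) h1
    intro ω hω
    obtain ⟨_, a, ha, haω, t', ht', h2⟩ := Finset.mem_filter.mp hω
    rw [hlam] at ha
    rw [hne' K' hne] at ht'
    rw [hSh, hShe K' hne] at h2
    refine ⟨Finset.mem_image.mpr ⟨a, ha, haω⟩, a, ha, haω, t', ht', ?_⟩
    rw [Nat.mod_mod]
    exact h2
  · intro K' hn hT hq L hL μ n ε hε
    have hne : K' ≠ K := by
      rintro rfl
      have hw : G.w K' = G.q K' + G.l K' := rfl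
      have hd := hG.d_pos K' hK
      omega
    have hI : K' ∈ I1 := Finset.mem_filter.mpr
      ⟨Finset.mem_range.mpr (Nat.lt_succ_of_le hn.2.1), ⟨hn, hT⟩, hq⟩
    have h1 := hf (tS1 G D0 K K' L (μ % 2 ^ G.lO K) (n % 2 ^ (K - G.q K)) ε)
      (Or.inl (Or.inr ⟨K', hI, L, hL, μ % 2 ^ G.lO K, Finset.mem_range.mpr (Nat.mod_lt _ hMμ),
        n % 2 ^ (K - G.q K), Finset.mem_range.mpr (Nat.mod_lt _ hMq), ε,
        Finset.mem_range.mpr hε, rfl⟩))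
    apply TPass.diag (P := fun ω v => ∃ a ∈ Lam G D0 K K' L (μ % 2 ^ G.lO K), a.2.1 = ω ∧
      ∃ u ∈ G.Sd (G.l K), ∃ t' ∈ (D0 K').T,
      (u + v + (t' + Sh G D0 K' a.2.2 + ε) % 2 ^ G.ρ K') % 2 ^ (K - G.q K) =
        n % 2 ^ (K - G.q K) % 2 ^ (K - G.q K)) h1
    intro ω hω
    obtain ⟨_, a, ha, haω, u, hu, t', ht', h2⟩ := Finset.mem_filter.mp hω
    rw [hlam] at ha
    rw [hne' K' hne] at ht'
    rw [hS, hShe K' hne] at h2
    refine ⟨Finset.mem_image.mpr ⟨a, ha, haω⟩, a, ha, haω, u, hu, t', ht', ?_⟩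
    rw [Nat.mod_mod]
    exact h2
  · intro K' hn hT hq L hL μ n
    have hI : K' ∈ I2 := Finset.mem_filter.mpr
      ⟨Finset.mem_range.mpr (Nat.lt_succ_of_le hn.2.1), ⟨hn, hT⟩, hq⟩
    have h1 := hf (tS2 G D0 K K' L (μ % 2 ^ G.lO K) (n % 2 ^ G.ρ K))
      (Or.inr (Or.inl ⟨K', hI, L, hL, μ % 2 ^ G.lO K, Finset.mem_range.mpr (Nat.mod_lt _ hMμ),
        n % 2 ^ G.ρ K, Finset.mem_range.mpr (Nat.mod_lt _ hMρ), rfl⟩))
    apply TPass.diag (P := fun ω v => (∃ a ∈ Lam G D0 K K' L (μ % 2 ^ G.lO K), a.2.1 = ω) ∧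
      v / 2 ^ G.l K % 2 ^ G.ρ K = n % 2 ^ G.ρ K % 2 ^ G.ρ K) h1
    intro ω hω
    obtain ⟨_, ⟨a, ha, haω⟩, h2⟩ := Finset.mem_filter.mp hω
    rw [hlam] at ha
    rw [hSh] at h2
    refine ⟨Finset.mem_image.mpr ⟨a, ha, haω⟩, ⟨a, ha, haω⟩, ?_⟩
    rw [Nat.mod_mod]
    exact h2
  · intro hT L hL μ n
    have hn := near_self hG hK hgK
    have hI : K ∈ I3 := Finset.mem_filter.mpr ⟨Finset.mem_range.mpr (Nat.lt_succ_self _), rfl, hT⟩
    have h1 := hf (tS3 G D0 K L (μ % 2 ^ G.lO K) (n % 2 ^ G.ρ K))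
      (Or.inr (Or.inr ⟨K, hI, L, hL, μ % 2 ^ G.lO K, Finset.mem_range.mpr (Nat.mod_lt _ hMμ),
        n % 2 ^ G.ρ K, Finset.mem_range.mpr (Nat.mod_lt _ hMρ), rfl⟩))
    rw [hlam]
    have hdeg := fun ω => (lam_deg hG hn hPH hPH (Or.inl hT) hL (μ % 2 ^ G.lO K) ω).1
    have h2 := card_of_mdisj_map ((Lam G D0 K K L (μ % 2 ^ G.lO K)).filter (fun a =>
      (Sh G D' K a.2.1 + Sh G D' K a.2.2) % 2 ^ G.ρ K = n % 2 ^ G.ρ K)) (fun a => a.2) (G.b K)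
      (3 * G.b K) ?_ ?_ ?_
    · have hb := hG.b_pos K hK
      calc _ ≤ 4 * (3 * G.b K) * G.b K := h2
        _ = 12 * G.b K ^ 2 := by ring
        _ ≤ 100 * G.b K ^ 2 := Nat.mul_le_mul_right _ (by norm_num)
    · intro S hS hd
      apply h1 S
      · intro p hp
        obtain ⟨a, ha, rfl⟩ := hS p hp
        exact Finset.mem_image_of_mem _ (Finset.mem_filter.mp ha).1
      · exact hd
      · intro p hp
        obtain ⟨a, ha, rfl⟩ := hS p hp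
        have h3 := (Finset.mem_filter.mp ha).2
        rw [hSh, hSh] at h3
        show (f a.2.1 / 2 ^ G.l K + f a.2.2 / 2 ^ G.l K) % 2 ^ G.ρ K =
          n % 2 ^ G.ρ K % 2 ^ G.ρ K
        rw [Nat.mod_mod]
        exact h3
    · intro x
      refine le_trans (Finset.card_le_card ?_) (hdeg x).1.le
      intro a ha
      obtain ⟨h3, h4⟩ := Finset.mem_filter.mp ha
      exact Finset.mem_filter.mpr ⟨(Finset.mem_filter.mp h3).1, h4⟩
    · intro x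
      refine le_trans (Finset.card_le_card ?_) (hdeg x).2.le
      intro a ha
      obtain ⟨h3, h4⟩ := Finset.mem_filter.mp ha
      exact Finset.mem_filter.mpr ⟨(Finset.mem_filter.mp h3).1, h4⟩

end Pool.Agent.E2
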