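import Pool.Agent.E2S.Geo
import Pool.Agent.Helper84.E2.ChoiceOk
import Pool.Agent.Helper7.E2.Case2

/-!
# E-T (MP_12a1af_nt), phase 2: the local choice for the schedule, facts on the window sets
-/

set_option autoImplicit false

open Finset

namespace Pool.Agent.Helper70.E2

open Pool.Agent.E2 Pool.Agent.E2S
open Pool.Agent.ETS (card_pairs)
open Pool.Agent.Helper29.E2 (Ld zb wn topOK)
open Pool.Agent.Helper83.E2 (mk2)

variable {c K1 K : ℕ} {Sd : ℕ → Finset ℕ}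

/-- the data of all scales -/
def DtOk (c K1 : ℕ) (Sd : ℕ → Finset ℕ) (D : ℕ → Dt) : Prop :=
  ∀ K, K1 ≤ K → PH (geo c K1 Sd) D K ∧ PS (geo c K1 Sd) D K ∧ PT (geo c K1 Sd) D K

/-- the local choice for the schedule -/
theorem exists_dt (hb : BigK c K1) (hT : TsHyp c K1) (hS : SdHyp c K1 Sd) :
    ∃ D : ℕ → Dt, DtOk c K1 Sd D := exists_choice (geoOk hb hT hS)

/-- the window sets -/
def TKof (D : ℕ → Dt) (K : ℕ) : Finset ℕ := (D K).T

theorem geo_w (hb : BigK c K1) (hK : K1 ≤ K) : (geo c K1 Sd).w K = wn c K :=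
  (topOK (hb.big.mono hK)).zb1.1

theorem geo_rho (hb : BigK c K1) (hK : K1 ≤ K) : (geo c K1 Sd).ρ K = K - wn c K := by
  unfold Geo.ρ
  rw [geo_w hb hK]

theorem geo_l (c K1 K : ℕ) (Sd : ℕ → Finset ℕ) : (geo c K1 Sd).l K = Ld c (zb c K) := rfl

theorem tk_card (hb : BigK c K1) {D : ℕ → Dt} (hD : DtOk c K1 Sd D) (hK : K1 ≤ K) :
    (TKof D K).card = 2 ^ ((K - wn c K) / 2 - 1) := by
  have h := (hD K hK).2.2.card
  unfold Geo.N at h
  rw [geo_rho hb hK] at h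
  exact h

theorem tk_lt (hb : BigK c K1) {D : ℕ → Dt} (hD : DtOk c K1 Sd D) (hK : K1 ≤ K) :
    ∀ t ∈ TKof D K, t < 2 ^ (K - wn c K) := by
  have h := (hD K hK).2.2.lt
  rw [geo_rho hb hK] at h
  exact h

/-- **the window sets are thick** (hypothesis `hTK` of `cnt_lay`) -/
theorem tk_thick (hb : BigK c K1) {D : ℕ → Dt} (hD : DtOk c K1 Sd D) (hK : K1 ≤ K) :
    2 ^ ((K - wn c K) / 2) ≤ 2 ^ 4 * (TKof D K).card := by
  rw [tk_card hb hD hK, ← pow_add]
  exact Nat.pow_le_pow_right (by norm_num) (by omega)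

theorem tk_sq (hb : BigK c K1) {D : ℕ → Dt} (hD : DtOk c K1 Sd D) (hK : K1 ≤ K) :
    (TKof D K).card ^ 2 ≤ 2 ^ (K - wn c K) := by
  rw [tk_card hb hD hK, ← pow_mul]
  exact Nat.pow_le_pow_right (by norm_num) (by omega)

/-- the zone of the layout is the zone of `Geo` -/
theorem zone_rg (c K1 K : ℕ) (Sd : ℕ → Finset ℕ) (D : ℕ → Dt) :
    (zoneReg c K).rg (mk2 c Sd (TKof D)) = zn (geo c K1 Sd) D K := rfl

/-- the small cells of the layout are the cells of `Geo` -/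
theorem cell_rg (c a : ℕ) (Sd TK : ℕ → Finset ℕ) :
    (Reg2.cell (Ld c a) a).rg (mk2 c Sd TK) = cellRg a (Ld c a) (Sd (Ld c a)) := rfl

/-- length of the zone -/
theorem zone_len (hb : BigK c K1) (hK : K1 ≤ K) (D : ℕ → Dt) :
    ((zoneReg c K).rg (mk2 c Sd (TKof D))).len = Ld c (zb c K) + (K - wn c K) := by
  have T := topOK (hb.big.mono hK)
  have h1 := T.zb1.1
  have h2 := T.wn1.1
  have h3 := T.sbt.1
  show K - zb c K = Ld c (zb c K) + (K - wn c K)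
  omega

/-- **cardinality of the zone** -/
theorem zone_card (hb : BigK c K1) (hS : SdHyp c K1 Sd) {D : ℕ → Dt} (hD : DtOk c K1 Sd D)
    (hK : K1 ≤ K) : ((zoneReg c K).rg (mk2 c Sd (TKof D))).V.card ^ 2 ≤
      2 ^ ((zoneReg c K).rg (mk2 c Sd (TKof D))).len := by
  have T := topOK (hb.big.mono hK)
  have h1 := T.zb1.1
  have h2 := T.wn1.1
  have h3 := T.sbt.1
  have h4 : Pool.Agent.Helper29.E2.epo c K1 ≤ Pool.Agent.Helper29.E2.ep c (zb c K) :=
    (Pool.Agent.Helper29.E2.epo_mono hK).trans (T.ep _ T.wbz (by omega)).1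
  have h5 := (hS.2 _ h4).card
  have hV : ((zoneReg c K).rg (mk2 c Sd (TKof D))).V.card =
      (Sd (Ld c (zb c K))).card * (TKof D K).card := card_pairs _ _
  have h6 : (Sd (Ld c (zb c K))).card ^ 2 ≤ 2 ^ Ld c (zb c K) := by
    calc (Sd (Ld c (zb c K))).card ^ 2 ≤ (2 ^ (Ld c (zb c K) / 2)) ^ 2 :=
          Nat.pow_le_pow_left h5 2
      _ = 2 ^ (Ld c (zb c K) / 2 * 2) := by rw [← pow_mul]
      _ ≤ _ := Nat.pow_le_pow_right (by norm_num) (by omega)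
  rw [hV, zone_len hb hK, mul_pow, pow_add]
  exact Nat.mul_le_mul h6 (tk_sq hb hD hK)

/-- **injectivity of the content of the zone** -/
theorem zone_inj (hb : BigK c K1) (hT : TsHyp c K1) (hS : SdHyp c K1 Sd) {D : ℕ → Dt}
    (hD : DtOk c K1 Sd D) (hK : K1 ≤ K) :
    ∀ v ∈ ((zoneReg c K).rg (mk2 c Sd (TKof D))).V,
    ∀ v' ∈ ((zoneReg c K).rg (mk2 c Sd (TKof D))).V,
    ((zoneReg c K).rg (mk2 c Sd (TKof D))).c v ≡ ((zoneReg c K).rg (mk2 c Sd (TKof D))).c v'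
      [MOD 2 ^ ((zoneReg c K).rg (mk2 c Sd (TKof D))).len] → v = v' := by
  have h := Pool.Agent.Helper7.E2.inj_zn (geoOk hb hT hS) (D := D) (K := K) hK
    (hD K hK).2.2.lt
  exact h

end Pool.Agent.Helper70.E2
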