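import Pool.Agent.Helper70.E2.RF

/-!
# Counting hit values
-/

set_option autoImplicit false

namespace Pool.Agent.E2

open Finset

/-- `v` is determined by `(v + c) % M` -/
theorem mod_add_inj {M c v w : ℕ} (hv : v < M) (hw : w < M)
    (h : (v + c) % M = (w + c) % M) : v = w :=
  Nat.ModEq.eq_of_lt_of_lt (Nat.ModEq.add_right_cancel' c h) hv hw

/-- values hit by a family of congruences -/
theorem card_hit_le {X : Type*} (S : Finset X) (M : ℕ) (c n : X → ℕ) (Q : Finset ℕ)
    (h : ∀ v ∈ Q, v < M ∧ ∃ x ∈ S, (v + c x) % M = n x) : Q.card ≤ S.card := by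
  classical
  have hsub : Q ⊆ S.biUnion (fun x => (range M).filter (fun v => (v + c x) % M = n x)) := by
    intro v hv
    obtain ⟨h1, x, hx, h2⟩ := h v hv
    rw [Finset.mem_biUnion]
    exact ⟨x, hx, Finset.mem_filter.mpr ⟨Finset.mem_range.mpr h1, h2⟩⟩
  refine (Finset.card_le_card hsub).trans (Finset.card_biUnion_le.trans ?_)
  calc ∑ x ∈ S, ((range M).filter (fun v => (v + c x) % M = n x)).card
      ≤ ∑ x ∈ S, 1 := by
        apply Finset.sum_le_sum
        intro x _
        rw [Finset.card_le_one]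
        intro v hv w hw
        obtain ⟨h1, h2⟩ := Finset.mem_filter.mp hv
        obtain ⟨h3, h4⟩ := Finset.mem_filter.mp hw
        exact mod_add_inj (Finset.mem_range.mp h1) (Finset.mem_range.mp h3) (h2.trans h4.symm)
    _ = S.card := by simp

/-- values with high part in a set -/
theorem card_hi_le {l ρ : ℕ} (X Q : Finset ℕ) (h : ∀ v ∈ Q, v < 2 ^ (l + ρ) ∧ v / 2 ^ l ∈ X) :
    Q.card ≤ X.card * 2 ^ l := by
  classical
  have h1 : (Q.image (fun v => (v / 2 ^ l, v % 2 ^ l))) ⊆ X ×ˢ range (2 ^ l) := by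
    intro p hp
    obtain ⟨v, hv, rfl⟩ := Finset.mem_image.mp hp
    exact Finset.mem_product.mpr ⟨(h v hv).2,
      Finset.mem_range.mpr (Nat.mod_lt _ (Nat.pow_pos (by norm_num)))⟩
  have h2 : (Q.image (fun v => (v / 2 ^ l, v % 2 ^ l))).card = Q.card := by
    apply Finset.card_image_of_injective
    intro v w hvw
    obtain ⟨e1, e2⟩ := Prod.mk.inj hvw
    rw [← Nat.div_add_mod v (2 ^ l), ← Nat.div_add_mod w (2 ^ l), e1, e2]
  have h3 := Finset.card_le_card h1
  rw [h2, Finset.card_product, Finset.card_range] at h3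
  exact h3

/-- values whose high part is hit by a family of congruences -/
theorem card_hit_hi_le {X : Type*} (S : Finset X) (l ρ : ℕ) (c n : X → ℕ) (Q : Finset ℕ)
    (h : ∀ v ∈ Q, v < 2 ^ (l + ρ) ∧ ∃ x ∈ S, (v / 2 ^ l + c x) % 2 ^ ρ = n x) :
    Q.card ≤ S.card * 2 ^ l := by
  classical
  have h1 := card_hi_le (l := l) (ρ := ρ) (Q.image (fun v => v / 2 ^ l)) Q
    (fun v hv => ⟨(h v hv).1, Finset.mem_image_of_mem _ hv⟩)
  refine h1.trans (Nat.mul_le_mul_right _ ?_)
  apply card_hit_le S (2 ^ ρ) c n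
  intro v hv
  obtain ⟨w, hw, rfl⟩ := Finset.mem_image.mp hv
  obtain ⟨h2, h3⟩ := h w hw
  refine ⟨?_, h3⟩
  rw [Nat.div_lt_iff_lt_mul (Nat.pow_pos (by norm_num)), ← pow_add, add_comm ρ l]
  exact h2

/-- `2 v ≡ n` has at most two solutions modulo `M` -/
theorem card_two_mul_le (M n : ℕ) (Q : Finset ℕ) (h : ∀ v ∈ Q, v < M ∧ (v + v) % M = n) :
    Q.card ≤ 2 := by
  classical
  rcases Q.eq_empty_or_nonempty with rfl | hne
  · simp
  · -- the least element
    obtain ⟨v0, hv0, hmin⟩ := Finset.exists_min_image Q id hne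
    have hM : 0 < M := lt_of_le_of_lt (Nat.zero_le _) (h v0 hv0).1
    -- all elements are `v0` or `v0 + M / 2`
    have hsub : Q ⊆ {v0, v0 + M / 2} := by
      intro v hv
      rw [Finset.mem_insert, Finset.mem_singleton]
      obtain ⟨h1, h2⟩ := h v hv
      obtain ⟨h3, h4⟩ := h v0 hv0
      have h5 : v0 ≤ v := hmin v hv
      have h6 : (v + v) % M = (v0 + v0) % M := h2.trans h4.symm
      have h7 : M ∣ (v + v) - (v0 + v0) :=
        (Nat.modEq_iff_dvd' (by omega)).mp (show v0 + v0 ≡ v + v [MOD M] from h6.symm)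
      obtain ⟨k, hk⟩ := h7
      have hk2 : k < 2 := by
        by_contra hge
        push Not at hge
        have : M * 2 ≤ M * k := Nat.mul_le_mul_left _ hge
        omega
      rcases Nat.lt_succ_iff_lt_or_eq.mp hk2 with hk0 | hk1
      · have : k = 0 := by omega
        subst this
        left; omega
      · subst hk1
        right; omega
    exact (Finset.card_le_card hsub).trans (Finset.card_insert_le _ _ |>.trans (by simp))

/-- loops: values `v` with `2 v` hit by a family of congruences -/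
theorem card_hit_two_le {X : Type*} (S : Finset X) (M : ℕ) (c n : X → ℕ) (Q : Finset ℕ)
    (h : ∀ v ∈ Q, v < M ∧ ∃ x ∈ S, (v + v + c x) % M = n x) : Q.card ≤ S.card * 2 := by
  classical
  have hsub : Q ⊆ S.biUnion (fun x => (range M).filter (fun v => (v + v + c x) % M = n x)) := by
    intro v hv
    obtain ⟨h1, x, hx, h2⟩ := h v hv
    rw [Finset.mem_biUnion]
    exact ⟨x, hx, Finset.mem_filter.mpr ⟨Finset.mem_range.mpr h1, h2⟩⟩
  refine (Finset.card_le_card hsub).trans (Finset.card_biUnion_le.trans ?_)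
  calc ∑ x ∈ S, ((range M).filter (fun v => (v + v + c x) % M = n x)).card
      ≤ ∑ x ∈ S, 2 := by
        apply Finset.sum_le_sum
        intro x _
        rcases ((range M).filter (fun v => (v + v + c x) % M = n x)).eq_empty_or_nonempty with
          he | ⟨v0, hv0⟩
        · rw [he]; simp
        · obtain ⟨h1, h2⟩ := Finset.mem_filter.mp hv0
          apply card_two_mul_le M ((v0 + v0) % M)
          intro v hv
          obtain ⟨h3, h4⟩ := Finset.mem_filter.mp hv
          refine ⟨Finset.mem_range.mp h3, ?_⟩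
          exact Nat.ModEq.add_right_cancel' (c x) (h4.trans h2.symm)
    _ = S.card * 2 := by rw [Finset.sum_const, smul_eq_mul]

/-- loops, high parts -/
theorem card_hit_two_hi_le {X : Type*} (S : Finset X) (l ρ : ℕ) (c n : X → ℕ) (Q : Finset ℕ)
    (h : ∀ v ∈ Q, v < 2 ^ (l + ρ) ∧ ∃ x ∈ S, (v / 2 ^ l + v / 2 ^ l + c x) % 2 ^ ρ = n x) :
    Q.card ≤ S.card * 2 * 2 ^ l := by
  classical
  have h1 := card_hi_le (l := l) (ρ := ρ) (Q.image (fun v => v / 2 ^ l)) Q
    (fun v hv => ⟨(h v hv).1, Finset.mem_image_of_mem _ hv⟩)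
  refine h1.trans (Nat.mul_le_mul_right _ ?_)
  apply card_hit_two_le S (2 ^ ρ) c n
  intro v hv
  obtain ⟨w, hw, rfl⟩ := Finset.mem_image.mp hv
  obtain ⟨h2, h3⟩ := h w hw
  refine ⟨?_, h3⟩
  rw [Nat.div_lt_iff_lt_mul (Nat.pow_pos (by norm_num)), ← pow_add, add_comm ρ l]
  exact h2

end Pool.Agent.E2
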