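import Pool.Agent.Helper84.E2.TopDefs
import Pool.Agent.Helper70.E2.Tst

/-!
# Facts on `Lam`
-/

set_option autoImplicit false

namespace Pool.Agent.E2

open Finset

variable {G : Geo}

theorem mem_Lam {D : ℕ → Dt} {K K' : ℕ} {L : Finset (ℕ × ℕ)} {μ : ℕ}
    {a : (ℕ × ℕ) × (ℕ × ℕ)} : a ∈ Lam G D K K' L μ ↔
      (a.1 ∈ L ∧ a.2.1 ∈ G.Sd (G.lO K) ∧ a.2.2 ∈ G.Sd (G.lO K)) ∧
      (a.2.1 + a.2.2 + (D K).H a.1.1 + (D K').H a.1.2) % 2 ^ G.lO K = μ % 2 ^ G.lO K := by
  unfold Lam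
  rw [Finset.mem_filter, Finset.mem_product, Finset.mem_product]

theorem Lam_congr {D D₂ : ℕ → Dt} {K K' : ℕ} (h : (D K).H = (D₂ K).H)
    (h' : (D K').H = (D₂ K').H) (L : Finset (ℕ × ℕ)) (μ : ℕ) :
    Lam G D K K' L μ = Lam G D₂ K K' L μ := by
  unfold Lam
  rw [h, h']

/-- solve a congruence -/
theorem exists_sub_mod {M : ℕ} (hM : 0 < M) (c μ : ℕ) :
    ∃ x, ∀ y, (y + c) % M = μ % M → y % M = x % M := by
  refine ⟨μ + c * (M - 1), fun y hy => ?_⟩
  have h1 : y + c * M ≡ μ + c * (M - 1) [MOD M] := by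
    have h2 : c * M = c + c * (M - 1) := by
      obtain ⟨m, rfl⟩ : ∃ m, M = m + 1 := ⟨M - 1, by omega⟩
      rw [Nat.add_sub_cancel]; ring
    rw [h2, ← add_assoc]
    exact Nat.ModEq.add_right _ hy
  have h3 : y ≡ y + c * M [MOD M] := by
    have : y + c * M ≡ y + 0 [MOD M] :=
      Nat.ModEq.add_left _ ((Nat.modEq_zero_iff_dvd).mpr (Dvd.intro_left _ rfl))
    exact this.symm
  exact h3.trans h1

theorem lam_over {D : ℕ → Dt} {K K' : ℕ} {L : Finset (ℕ × ℕ)} {bd : ℕ}
    (hO : SdOk G.Sd (G.lO K))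
    (h : ∀ x, ∀ F ⊆ L, (∀ p ∈ F, ∃ ω ∈ G.Sd (G.lO K),
      (ω + (D K).H p.1 + (D K').H p.2) % 2 ^ G.lO K = x % 2 ^ G.lO K) → F.card < bd) (μ ω : ℕ) :
    ((Lam G D K K' L μ).filter (fun a => a.2.1 = ω)).card < bd ∧
    ((Lam G D K K' L μ).filter (fun a => a.2.2 = ω)).card < bd := by
  classical
  have hM : 0 < 2 ^ G.lO K := Nat.pow_pos (by norm_num)
  obtain ⟨x, hx⟩ := exists_sub_mod hM ω μ
  constructor
  · rw [← Finset.card_image_of_injOn (f := fun a => a.1)
      (s := (Lam G D K K' L μ).filter (fun a => a.2.1 = ω))]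
    · apply h x
      · intro p hp
        obtain ⟨a, ha, rfl⟩ := Finset.mem_image.mp hp
        exact (mem_Lam.mp (Finset.mem_filter.mp ha).1).1.1
      · intro p hp
        obtain ⟨a, ha, rfl⟩ := Finset.mem_image.mp hp
        obtain ⟨h1, h2⟩ := Finset.mem_filter.mp ha
        obtain ⟨⟨h3, h4, h5⟩, h6⟩ := mem_Lam.mp h1
        refine ⟨a.2.2, h5, hx _ ?_⟩
        rw [← h6, h2]
        congr 1
        ring
    · intro a ha a' ha' haa
      obtain ⟨h1, h2⟩ := Finset.mem_filter.mp ha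
      obtain ⟨⟨h3, h4, h5⟩, h6⟩ := mem_Lam.mp h1
      obtain ⟨h1', h2'⟩ := Finset.mem_filter.mp ha'
      obtain ⟨⟨h3', h4', h5'⟩, h6'⟩ := mem_Lam.mp h1'
      simp only at haa
      have e : a.2.2 = a'.2.2 := by
        apply mod_add_inj (M := 2 ^ G.lO K) (c := ω + (D K).H a.1.1 + (D K').H a.1.2)
          (hO.lt _ h5) (hO.lt _ h5')
        have e1 : a.2.2 + (ω + (D K).H a.1.1 + (D K').H a.1.2) =
            a.2.1 + a.2.2 + (D K).H a.1.1 + (D K').H a.1.2 := by rw [h2]; ring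
        have e2 : a'.2.2 + (ω + (D K).H a.1.1 + (D K').H a.1.2) =
            a'.2.1 + a'.2.2 + (D K).H a'.1.1 + (D K').H a'.1.2 := by rw [h2', haa]; ring
        rw [e1, e2, h6, h6']
      exact Prod.ext haa (Prod.ext (h2.trans h2'.symm) e)
  · rw [← Finset.card_image_of_injOn (f := fun a => a.1)
      (s := (Lam G D K K' L μ).filter (fun a => a.2.2 = ω))]
    · apply h x
      · intro p hp
        obtain ⟨a, ha, rfl⟩ := Finset.mem_image.mp hp
        exact (mem_Lam.mp (Finset.mem_filter.mp ha).1).1.1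
      · intro p hp
        obtain ⟨a, ha, rfl⟩ := Finset.mem_image.mp hp
        obtain ⟨h1, h2⟩ := Finset.mem_filter.mp ha
        obtain ⟨⟨h3, h4, h5⟩, h6⟩ := mem_Lam.mp h1
        refine ⟨a.2.1, h4, hx _ ?_⟩
        rw [← h6, h2]
        congr 1
        ring
    · intro a ha a' ha' haa
      obtain ⟨h1, h2⟩ := Finset.mem_filter.mp ha
      obtain ⟨⟨h3, h4, h5⟩, h6⟩ := mem_Lam.mp h1
      obtain ⟨h1', h2'⟩ := Finset.mem_filter.mp ha'
      obtain ⟨⟨h3', h4', h5'⟩, h6'⟩ := mem_Lam.mp h1'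
      simp only at haa
      have e : a.2.1 = a'.2.1 := by
        apply mod_add_inj (M := 2 ^ G.lO K) (c := ω + (D K).H a.1.1 + (D K').H a.1.2)
          (hO.lt _ h4) (hO.lt _ h4')
        have e1 : a.2.1 + (ω + (D K).H a.1.1 + (D K').H a.1.2) =
            a.2.1 + a.2.2 + (D K).H a.1.1 + (D K').H a.1.2 := by rw [h2]; ring
        have e2 : a'.2.1 + (ω + (D K).H a.1.1 + (D K').H a.1.2) =
            a'.2.1 + a'.2.2 + (D K).H a'.1.1 + (D K').H a'.1.2 := by rw [h2', haa]; ring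
        rw [e1, e2, h6, h6']
      exact Prod.ext haa (Prod.ext e (h2.trans h2'.symm))

theorem card_Lam_le {D : ℕ → Dt} {K : ℕ} (hO : SdOk G.Sd (G.lO K)) (K' : ℕ)
    (L : Finset (ℕ × ℕ)) (μ : ℕ) : (Lam G D K K' L μ).card ≤ 8 * L.card := by
  classical
  have hM : 0 < 2 ^ G.lO K := Nat.pow_pos (by norm_num)
  apply Finset.card_le_mul_card_image_of_maps_to (f := fun a => a.1)
  · intro a ha
    exact (mem_Lam.mp ha).1.1
  · intro p hp
    obtain ⟨x, hx⟩ := exists_sub_mod hM ((D K).H p.1 + (D K').H p.2) μ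
    rw [← Finset.card_image_of_injOn (f := fun a => a.2)
      (s := (Lam G D K K' L μ).filter (fun a => a.1 = p))]
    · refine (Finset.card_le_card ?_).trans (hO.pair (x % 2 ^ G.lO K))
      intro q hq
      obtain ⟨a, ha, rfl⟩ := Finset.mem_image.mp hq
      obtain ⟨h1, h2⟩ := Finset.mem_filter.mp ha
      obtain ⟨⟨h3, h4, h5⟩, h6⟩ := mem_Lam.mp h1
      rw [Finset.mem_filter, Finset.mem_product]
      refine ⟨⟨h4, h5⟩, hx _ ?_⟩
      rw [← h6, h2]
      congr 1
      ring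
    · intro a ha a' ha' haa
      obtain ⟨h1, h2⟩ := Finset.mem_filter.mp ha
      obtain ⟨h1', h2'⟩ := Finset.mem_filter.mp ha'
      exact Prod.ext (h2.trans h2'.symm) haa

/-- the consequence of (PH) for the lists of a near pair -/
theorem ph_list (hG : G.Ok) {D : ℕ → Dt} {K K' : ℕ} (hn : G.Near K K') (h : PH G D K)
    (h' : PH G D K') (hT : G.isT K ∨ G.isT K') {L : Finset (ℕ × ℕ)} (hL : L ∈ G.LF K K') (x : ℕ)
    (F : Finset (ℕ × ℕ)) (hF : F ⊆ L) (hx : ∀ p ∈ F, ∃ ω ∈ G.Sd (G.lO K),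
      (ω + (D K).H p.1 + (D K').H p.2) % 2 ^ G.lO K = x % 2 ^ G.lO K) :
    F.card < 3 * G.b K ∧ (K' ≠ K → F.card < G.b K) := by
  classical
  by_cases hK : G.isT K
  · by_cases hK' : G.isT K'
    · by_cases hne : K' = K
      · subst hne
        refine ⟨lt_of_le_of_lt (Finset.card_le_card ?_) (h.self hK L hL x), fun hh => absurd rfl hh⟩
        intro p hp
        exact Finset.mem_filter.mpr ⟨hF hp, hx p hp⟩
      · have h1 : F.card < G.b K := by
          refine lt_of_le_of_lt (Finset.card_le_card ?_) (h.two K' hn hK hK' hne L hL x)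
          intro p hp
          exact Finset.mem_filter.mpr ⟨hF hp, hx p hp⟩
        exact ⟨by omega, fun _ => h1⟩
    · have h1 : F.card < G.b K := by
        have hLF : L ∈ (G.LF1 K).image (fun Q => Q ×ˢ ({0} : Finset ℕ)) := by
          unfold Geo.LF at hL
          rw [if_pos hK, if_neg hK'] at hL
          exact hL
        obtain ⟨Q, hQ, rfl⟩ := Finset.mem_image.mp hLF
        rw [← Finset.card_image_of_injOn (f := fun p => p.1) (s := F)]
        · refine lt_of_le_of_lt (Finset.card_le_card ?_) (h.own hK Q hQ x)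
          intro t ht
          obtain ⟨p, hp, rfl⟩ := Finset.mem_image.mp ht
          obtain ⟨ω, h1, h2⟩ := hx p hp
          rw [h'.zero hK'] at h2
          exact Finset.mem_filter.mpr ⟨(Finset.mem_product.mp (hF hp)).1, ω, h1, h2⟩
        · intro p hp p' hp' hpp
          have e1 := Finset.mem_singleton.mp (Finset.mem_product.mp (hF hp)).2
          have e2 := Finset.mem_singleton.mp (Finset.mem_product.mp (hF hp')).2
          exact Prod.ext hpp (e1.trans e2.symm)
      exact ⟨by omega, fun _ => h1⟩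
  · have hK' : G.isT K' := hT.resolve_left hK
    have h1 : F.card < G.b K' := by
      have hLF : L ∈ (G.LF1 K').image (fun Q => ({0} : Finset ℕ) ×ˢ Q) := by
        unfold Geo.LF at hL
        rw [if_neg hK, if_pos hK'] at hL
        exact hL
      obtain ⟨Q, hQ, rfl⟩ := Finset.mem_image.mp hLF
      have hlO := hG.lO K K' hn hT
      rw [← Finset.card_image_of_injOn (f := fun p => p.2) (s := F)]
      · refine lt_of_le_of_lt (Finset.card_le_card ?_) (h'.own hK' Q hQ x)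
        intro t ht
        obtain ⟨p, hp, rfl⟩ := Finset.mem_image.mp ht
        obtain ⟨ω, h1, h2⟩ := hx p hp
        rw [h.zero hK, hlO] at h2
        rw [hlO] at h1
        exact Finset.mem_filter.mpr ⟨(Finset.mem_product.mp (hF hp)).2, ω, h1, h2⟩
      · intro p hp p' hp' hpp
        have e1 := Finset.mem_singleton.mp (Finset.mem_product.mp (hF hp)).1
        have e2 := Finset.mem_singleton.mp (Finset.mem_product.mp (hF hp')).1
        exact Prod.ext (e1.trans e2.symm) hpp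
    have h2 : G.b K' ≤ G.b K := hG.b_mono hn.2.1
    exact ⟨by omega, fun _ => by omega⟩

/-- every `ω`, and every `ω'`, belongs to few elements of `Lam` -/
theorem lam_deg (hG : G.Ok) {D : ℕ → Dt} {K K' : ℕ} (hn : G.Near K K') (h : PH G D K)
    (h' : PH G D K') (hT : G.isT K ∨ G.isT K') {L : Finset (ℕ × ℕ)} (hL : L ∈ G.LF K K')
    (μ ω : ℕ) :
    (((Lam G D K K' L μ).filter (fun a => a.2.1 = ω)).card < 3 * G.b K ∧
      ((Lam G D K K' L μ).filter (fun a => a.2.2 = ω)).card < 3 * G.b K) ∧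
    (K' ≠ K → ((Lam G D K K' L μ).filter (fun a => a.2.1 = ω)).card < G.b K ∧
      ((Lam G D K K' L μ).filter (fun a => a.2.2 = ω)).card < G.b K) := by
  have hO := hG.sdO K (hn.1.trans hn.2.1)
  refine ⟨lam_over hO (fun x F hF hx => (ph_list hG hn h h' hT hL x F hF hx).1) μ ω, fun hne => ?_⟩
  exact lam_over hO (fun x F hF hx => (ph_list hG hn h h' hT hL x F hF hx).2 hne) μ ω

end Pool.Agent.E2
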