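import Mathlib

/-!
# Random functions with few hits

`f : A → [0, M)`; an event is a pair `(α, β)` of points of `A` (possibly `α = β`) together with
the values `f α`, `f β` which are hits.  Tests: for a finite set `E` of events there are less than
`r` hit events with disjoint supports.
-/

set_option autoImplicit false

namespace Pool.Agent.E2

open Finset

/-- events with disjoint supports -/
def MDisj {ι : Type*} (S : Finset (ι × ι)) : Prop :=
  ∀ p ∈ S, ∀ q ∈ S, p ≠ q → p.1 ≠ q.1 ∧ p.1 ≠ q.2 ∧ p.2 ≠ q.1 ∧ p.2 ≠ q.2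

/-- for one event: at most `b` of the values of the first point are hits -/
def HitB {ι : Type*} (M b : ℕ) (hit : ι × ι → ℕ → ℕ → Prop) (p : ι × ι) : Prop :=
  (p.1 = p.2 → ∀ Q : Finset ℕ, (∀ v ∈ Q, v < M ∧ hit p v v) → Q.card ≤ b) ∧
  (p.1 ≠ p.2 → ∀ v' < M, ∀ Q : Finset ℕ, (∀ v ∈ Q, v < M ∧ hit p v v') → Q.card ≤ b)

theorem MDisj.subset {ι : Type*} {S S' : Finset (ι × ι)} (h : MDisj S) (hs : S' ⊆ S) :
    MDisj S' := fun p hp q hq hne => h p (hs hp) q (hs hq) hne

section count

variable {ι : Type*} [Fintype ι] [DecidableEq ι]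

open Classical in
/-- the functions which hit all events of `S` -/
noncomputable def FS (M : ℕ) (hit : ι × ι → ℕ → ℕ → Prop) (S : Finset (ι × ι)) :
    Finset (ι → Fin M) :=
  univ.filter (fun f => ∀ p ∈ S, hit p (f p.1).1 (f p.2).1)

theorem mem_FS {M : ℕ} {hit : ι × ι → ℕ → ℕ → Prop} {S : Finset (ι × ι)} {f : ι → Fin M} :
    f ∈ FS M hit S ↔ ∀ p ∈ S, hit p (f p.1).1 (f p.2).1 := by
  simp [FS]

theorem FS_insert {M b : ℕ} {hit : ι × ι → ℕ → ℕ → Prop} {S : Finset (ι × ι)} {p : ι × ι}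
    (hp : p ∉ S) (hd : MDisj (insert p S)) (hb : HitB M b hit p) :
    (FS M hit (insert p S)).card * M ≤ b * (FS M hit S).card := by
  classical
  have h0 : ((FS M hit (insert p S)) ×ˢ (univ : Finset (Fin M))).card ≤
      b * (FS M hit S).card := by
    apply Finset.card_le_mul_card_image_of_maps_to
      (f := fun x : (ι → Fin M) × Fin M => Function.update x.1 p.1 x.2)
    · rintro ⟨f, v⟩ hx
      rw [Finset.mem_product] at hx
      have hf := mem_FS.mp hx.1
      rw [mem_FS]
      intro q hq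
      have hne : p ≠ q := fun h => hp (h ▸ hq)
      obtain ⟨a1, a2, -, -⟩ := hd p (mem_insert_self _ _) q (mem_insert_of_mem hq) hne
      show hit q (Function.update f p.1 v q.1).1 (Function.update f p.1 v q.2).1
      rw [Function.update_of_ne a1.symm, Function.update_of_ne a2.symm]
      exact hf q (mem_insert_of_mem hq)
    · intro g _
      -- the fibre injects into the hit values
      let Fb := ((FS M hit (insert p S)) ×ˢ (univ : Finset (Fin M))).filter
        (fun x : (ι → Fin M) × Fin M => Function.update x.1 p.1 x.2 = g)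
      have key : ∀ x ∈ Fb, x.2 = g p.1 ∧ x.1 = Function.update g p.1 (x.1 p.1) ∧
          hit p (x.1 p.1).1 (x.1 p.2).1 := by
        rintro ⟨f, v⟩ hx
        obtain ⟨hx1, hx2⟩ := Finset.mem_filter.mp hx
        have hf := mem_FS.mp (Finset.mem_product.mp hx1).1
        simp only at hx2
        refine ⟨?_, ?_, hf p (mem_insert_self _ _)⟩
        · rw [← hx2]; simp
        · rw [← hx2]; simp
      have himg : (Fb.image (fun x => (x.1 p.1).1)).card = Fb.card := by
        apply Finset.card_image_of_injOn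
        rintro ⟨f, v⟩ hx ⟨f', v'⟩ hx' hxx
        obtain ⟨e1, e2, -⟩ := key _ hx
        obtain ⟨e1', e2', -⟩ := key _ hx'
        simp only at hxx e1 e2 e1' e2'
        have hv : f p.1 = f' p.1 := Fin.ext hxx
        rw [e1, e1', e2, e2', hv]
      show Fb.card ≤ b
      rw [← himg]
      by_cases hpe : p.1 = p.2
      · apply hb.1 hpe
        intro v hv
        obtain ⟨x, hx, rfl⟩ := Finset.mem_image.mp hv
        refine ⟨(x.1 p.1).2, ?_⟩
        have := (key x hx).2.2
        rwa [← hpe] at this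
      · rcases Fb.eq_empty_or_nonempty with he | ⟨x0, hx0⟩
        · rw [he]; simp
        · apply hb.2 hpe (g p.2).1 (g p.2).2
          intro v hv
          obtain ⟨x, hx, rfl⟩ := Finset.mem_image.mp hv
          refine ⟨(x.1 p.1).2, ?_⟩
          obtain ⟨_, e2, e3⟩ := key x hx
          have : x.1 p.2 = g p.2 := by
            rw [e2, Function.update_of_ne (Ne.symm hpe)]
          rwa [this] at e3
  rw [Finset.card_product, Finset.card_univ, Fintype.card_fin] at h0
  exact h0

theorem FS_card {M b : ℕ} {hit : ι × ι → ℕ → ℕ → Prop} {S : Finset (ι × ι)}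
    (hd : MDisj S) (hb : ∀ p ∈ S, HitB M b hit p) :
    (FS M hit S).card * M ^ S.card ≤ b ^ S.card * M ^ Fintype.card ι := by
  classical
  induction S using Finset.induction_on with
  | empty =>
    simp only [Finset.card_empty, pow_zero, mul_one, one_mul]
    refine (Finset.card_le_univ _).trans ?_
    simp
  | insert p S hp ih =>
    have h1 := FS_insert hp hd (hb p (mem_insert_self _ _))
    have h2 := ih (hd.subset (Finset.subset_insert _ _))
      (fun q hq => hb q (mem_insert_of_mem hq))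
    rw [Finset.card_insert_of_notMem hp, pow_succ, pow_succ]
    calc (FS M hit (insert p S)).card * (M ^ S.card * M)
        = (FS M hit (insert p S)).card * M * M ^ S.card := by ring
      _ ≤ b * (FS M hit S).card * M ^ S.card := Nat.mul_le_mul_right _ h1
      _ = b * ((FS M hit S).card * M ^ S.card) := by ring
      _ ≤ b * (b ^ S.card * M ^ Fintype.card ι) := Nat.mul_le_mul_left _ h2
      _ = b ^ S.card * b * M ^ Fintype.card ι := by ring

open Classical in
/-- the bad functions of one test -/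
noncomputable def BadF (M r : ℕ) (hit : ι × ι → ℕ → ℕ → Prop) (E : Finset (ι × ι)) :
    Finset (ι → Fin M) :=
  univ.filter (fun f => ∃ S ⊆ E, MDisj S ∧ S.card = r ∧ ∀ p ∈ S, hit p (f p.1).1 (f p.2).1)

theorem BadF_card {M b r : ℕ} {hit : ι × ι → ℕ → ℕ → Prop} {E : Finset (ι × ι)}
    (hb : ∀ p ∈ E, HitB M b hit p) :
    (BadF M r hit E).card * M ^ r ≤ E.card.choose r * b ^ r * M ^ Fintype.card ι := by
  classical
  have hsub : BadF M r hit E ⊆
      ((powersetCard r E).filter (fun S => MDisj S)).biUnion (fun S => FS M hit S) := by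
    intro f hf
    obtain ⟨S, hS, hd, hc, hh⟩ := (Finset.mem_filter.mp hf).2
    rw [Finset.mem_biUnion]
    exact ⟨S, Finset.mem_filter.mpr ⟨Finset.mem_powersetCard.mpr ⟨hS, hc⟩, hd⟩, mem_FS.mpr hh⟩
  calc (BadF M r hit E).card * M ^ r
      ≤ (((powersetCard r E).filter (fun S => MDisj S)).biUnion
          (fun S => FS M hit S)).card * M ^ r :=
        Nat.mul_le_mul_right _ (Finset.card_le_card hsub)
    _ ≤ (∑ S ∈ (powersetCard r E).filter (fun S => MDisj S), (FS M hit S).card) * M ^ r :=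
        Nat.mul_le_mul_right _ Finset.card_biUnion_le
    _ = ∑ S ∈ (powersetCard r E).filter (fun S => MDisj S), (FS M hit S).card * M ^ r := by
        rw [Finset.sum_mul]
    _ ≤ ∑ S ∈ (powersetCard r E).filter (fun S => MDisj S), b ^ r * M ^ Fintype.card ι := by
        apply Finset.sum_le_sum
        intro S hS
        obtain ⟨h1, h2⟩ := Finset.mem_filter.mp hS
        obtain ⟨h3, h4⟩ := Finset.mem_powersetCard.mp h1
        have := FS_card h2 (fun p hp => hb p (h3 hp))
        rwa [h4] at this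
    _ ≤ ∑ S ∈ powersetCard r E, b ^ r * M ^ Fintype.card ι :=
        Finset.sum_le_sum_of_subset (Finset.filter_subset _ _)
    _ = E.card.choose r * b ^ r * M ^ Fintype.card ι := by
        rw [Finset.sum_const, Finset.card_powersetCard, smul_eq_mul, mul_assoc]

/-- **Random function with few hits**, for a finite type. -/
theorem exists_rf_fin {J : Type*} (JJ : Finset J) {M : ℕ} (hM : 0 < M)
    (E : J → Finset (ι × ι)) (hit : J → ι × ι → ℕ → ℕ → Prop) (b r : J → ℕ)
    (hb : ∀ j ∈ JJ, ∀ p ∈ E j, HitB M (b j) (hit j) p)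
    (hs : ∀ j ∈ JJ, 2 * JJ.card * ((E j).card.choose (r j) * b j ^ r j) ≤ M ^ r j) :
    ∃ f : ι → Fin M, ∀ j ∈ JJ, ∀ S ⊆ E j, MDisj S →
      (∀ p ∈ S, hit j p (f p.1).1 (f p.2).1) → S.card < r j := by
  classical
  by_contra hcon
  push Not at hcon
  have hsub : (univ : Finset (ι → Fin M)) ⊆ JJ.biUnion (fun j => BadF M (r j) (hit j) (E j)) := by
    intro f _
    obtain ⟨j, hj, S, hS, hd, hh, hc⟩ := hcon f
    obtain ⟨S', hS', hc'⟩ := Finset.exists_subset_card_eq hc
    rw [Finset.mem_biUnion]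
    exact ⟨j, hj, Finset.mem_filter.mpr ⟨Finset.mem_univ _, S', hS'.trans hS, hd.subset hS', hc',
      fun p hp => hh p (hS' hp)⟩⟩
  have h1 : M ^ Fintype.card ι ≤ ∑ j ∈ JJ, (BadF M (r j) (hit j) (E j)).card := by
    have := (Finset.card_le_card hsub).trans Finset.card_biUnion_le
    simpa using this
  have h2 : ∀ j ∈ JJ, 2 * JJ.card * (BadF M (r j) (hit j) (E j)).card ≤ M ^ Fintype.card ι := by
    intro j hj
    have h3 := BadF_card (r := r j) (hb j hj)
    have h4 := hs j hj
    have hpos : 0 < M ^ r j := Nat.pow_pos hM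
    refine Nat.le_of_mul_le_mul_right ?_ hpos
    calc 2 * JJ.card * (BadF M (r j) (hit j) (E j)).card * M ^ r j
        = 2 * JJ.card * ((BadF M (r j) (hit j) (E j)).card * M ^ r j) := by ring
      _ ≤ 2 * JJ.card * ((E j).card.choose (r j) * b j ^ r j * M ^ Fintype.card ι) :=
          Nat.mul_le_mul_left _ h3
      _ = 2 * JJ.card * ((E j).card.choose (r j) * b j ^ r j) * M ^ Fintype.card ι := by ring
      _ ≤ M ^ r j * M ^ Fintype.card ι := Nat.mul_le_mul_right _ h4
      _ = M ^ Fintype.card ι * M ^ r j := Nat.mul_comm _ _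
  have h5 : 2 * JJ.card * ∑ j ∈ JJ, (BadF M (r j) (hit j) (E j)).card ≤
      JJ.card * M ^ Fintype.card ι := by
    rw [Finset.mul_sum]
    refine (Finset.sum_le_sum h2).trans ?_
    rw [Finset.sum_const, smul_eq_mul]
  have hpos : 0 < M ^ Fintype.card ι := Nat.pow_pos hM
  have hJ : 0 < JJ.card := by
    rcases JJ.eq_empty_or_nonempty with he | hne
    · rw [he] at h1; simp at h1; omega
    · exact Finset.card_pos.mpr hne
  have h6 : 2 * JJ.card * M ^ Fintype.card ι ≤ JJ.card * M ^ Fintype.card ι :=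
    (Nat.mul_le_mul_left _ h1).trans h5
  have h7 : 0 < JJ.card * M ^ Fintype.card ι := Nat.mul_pos hJ hpos
  nlinarith

end count

/-- **Random function with few hits**: `f : ℕ → [0, M)`, events supported in the finite set `A`. -/
theorem exists_rf {J : Type*} (JJ : Finset J) (A : Finset ℕ) {M : ℕ} (hM : 0 < M)
    (E : J → Finset (ℕ × ℕ)) (hE : ∀ j ∈ JJ, ∀ p ∈ E j, p.1 ∈ A ∧ p.2 ∈ A)
    (hit : J → ℕ × ℕ → ℕ → ℕ → Prop) (b r : J → ℕ)
    (hb : ∀ j ∈ JJ, ∀ p ∈ E j, HitB M (b j) (hit j) p)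
    (hs : ∀ j ∈ JJ, 2 * JJ.card * ((E j).card.choose (r j) * b j ^ r j) ≤ M ^ r j) :
    ∃ f : ℕ → ℕ, (∀ x, f x < M) ∧ ∀ j ∈ JJ, ∀ S ⊆ E j, MDisj S →
      (∀ p ∈ S, hit j p (f p.1) (f p.2)) → S.card < r j := by
  classical
  -- transport to the subtype
  let em : {x // x ∈ A} × {x // x ∈ A} ↪ ℕ × ℕ :=
    ⟨fun p => (p.1.1, p.2.1), fun p q h => by
      have h1 := (Prod.mk.inj h).1
      have h2 := (Prod.mk.inj h).2
      exact Prod.ext (Subtype.ext h1) (Subtype.ext h2)⟩
  let E' : J → Finset ({x // x ∈ A} × {x // x ∈ A}) := fun j =>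
    univ.filter (fun p => em p ∈ E j)
  have hmap : ∀ j, ((E' j).map em) ⊆ E j := by
    intro j p hp
    obtain ⟨q, hq, rfl⟩ := Finset.mem_map.mp hp
    exact (Finset.mem_filter.mp hq).2
  have hcard : ∀ j, (E' j).card ≤ (E j).card := by
    intro j
    have := Finset.card_le_card (hmap j)
    rwa [Finset.card_map] at this
  obtain ⟨f, hf⟩ := exists_rf_fin (ι := {x // x ∈ A}) JJ hM E' (fun j p => hit j (em p)) b r
    (by
      intro j hj p hp
      have hpE : em p ∈ E j := (Finset.mem_filter.mp hp).2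
      obtain ⟨h1, h2⟩ := hb j hj (em p) hpE
      refine ⟨fun he => h1 (congrArg Subtype.val he), fun hne => h2 ?_⟩
      intro he
      exact hne (Subtype.ext he))
    (by
      intro j hj
      refine le_trans ?_ (hs j hj)
      exact Nat.mul_le_mul_left _ (Nat.mul_le_mul_right _ (Nat.choose_le_choose _ (hcard j))))
  refine ⟨fun x => if h : x ∈ A then (f ⟨x, h⟩).1 else 0, ?_, ?_⟩
  · intro x
    by_cases h : x ∈ A
    · simp only [h, dif_pos]; exact (f ⟨x, h⟩).2
    · simp only [h, dif_neg, not_false_eq_true]; exact hM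
  · intro j hj S hS hd hh
    let S' : Finset ({x // x ∈ A} × {x // x ∈ A}) := univ.filter (fun p => em p ∈ S)
    have hS'm : S'.map em = S := by
      ext p
      constructor
      · intro hp
        obtain ⟨q, hq, rfl⟩ := Finset.mem_map.mp hp
        exact (Finset.mem_filter.mp hq).2
      · intro hp
        obtain ⟨h1, h2⟩ := hE j hj p (hS hp)
        refine Finset.mem_map.mpr ⟨(⟨p.1, h1⟩, ⟨p.2, h2⟩), Finset.mem_filter.mpr
          ⟨Finset.mem_univ _, ?_⟩, ?_⟩
        · exact hp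
        · rfl
    have hc : S'.card = S.card := by rw [← hS'm, Finset.card_map]
    rw [← hc]
    apply hf j hj S'
    · intro p hp
      exact Finset.mem_filter.mpr ⟨Finset.mem_univ _, hS (Finset.mem_filter.mp hp).2⟩
    · intro p hp q hq hne
      obtain ⟨a1, a2, a3, a4⟩ := hd (em p) (Finset.mem_filter.mp hp).2 (em q)
        (Finset.mem_filter.mp hq).2 (fun h => hne (em.injective h))
      exact ⟨fun h => a1 (congrArg Subtype.val h), fun h => a2 (congrArg Subtype.val h),
        fun h => a3 (congrArg Subtype.val h), fun h => a4 (congrArg Subtype.val h)⟩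
    · intro p hp
      have := hh (em p) (Finset.mem_filter.mp hp).2
      have e1 : (em p).1 ∈ A := p.1.2
      have e2 : (em p).2 ∈ A := p.2.2
      simp only [e1, e2, dif_pos] at this
      exact this

/-- numerical form of the condition of `exists_rf` -/
theorem rf_thr {m q r N a c b J : ℕ} (hJ : J ≤ 2 ^ N) (hc : c ≤ a) (hb : b * 2 ^ q ≤ 2 ^ m)
    (h : 1 + N + a ≤ q * r) : 2 * J * (c.choose r * b ^ r) ≤ (2 ^ m) ^ r := by
  have hpos : 0 < 2 ^ (q * r) := Nat.pow_pos (by norm_num)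
  refine Nat.le_of_mul_le_mul_right ?_ hpos
  calc 2 * J * (c.choose r * b ^ r) * 2 ^ (q * r)
      = 2 * J * c.choose r * (b * 2 ^ q) ^ r := by rw [mul_pow, pow_mul]; ring
    _ ≤ 2 * 2 ^ N * 2 ^ a * (2 ^ m) ^ r := by
        refine Nat.mul_le_mul (Nat.mul_le_mul (Nat.mul_le_mul_left _ hJ) ?_)
          (Nat.pow_le_pow_left hb _)
        exact (Nat.choose_le_two_pow _ _).trans (Nat.pow_le_pow_right (by norm_num) hc)
    _ = 2 ^ (1 + N + a) * (2 ^ m) ^ r := by rw [pow_add, pow_add, pow_one]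
    _ ≤ 2 ^ (q * r) * (2 ^ m) ^ r :=
        Nat.mul_le_mul_right _ (Nat.pow_le_pow_right (by norm_num) h)
    _ = (2 ^ m) ^ r * 2 ^ (q * r) := Nat.mul_comm _ _

/-- **Random function with few hits**, threshold form: at most `2 ^ N` tests, at most `a` events
per test, each event has probability at most `2 ^ (- q)`; less than `r` disjoint hit events. -/
theorem exists_rf_thr {J : Type*} (JJ : Finset J) (A : Finset ℕ) (m q r N a : ℕ)
    (hJ : JJ.card ≤ 2 ^ N)
    (E : J → Finset (ℕ × ℕ)) (hE : ∀ j ∈ JJ, ∀ p ∈ E j, p.1 ∈ A ∧ p.2 ∈ A)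
    (hEc : ∀ j ∈ JJ, (E j).card ≤ a)
    (hit : J → ℕ × ℕ → ℕ → ℕ → Prop) (b : ℕ) (hb : b * 2 ^ q ≤ 2 ^ m)
    (hh : ∀ j ∈ JJ, ∀ p ∈ E j, HitB (2 ^ m) b (hit j) p) (h : 1 + N + a ≤ q * r) :
    ∃ f : ℕ → ℕ, (∀ x, f x < 2 ^ m) ∧ ∀ j ∈ JJ, ∀ S ⊆ E j, MDisj S →
      (∀ p ∈ S, hit j p (f p.1) (f p.2)) → S.card < r :=
  exists_rf JJ A (Nat.pow_pos (by norm_num)) E hE hit (fun _ => b) (fun _ => r) hh
    (fun j hj => rf_thr hJ (hEc j hj) hb h)

/-- diagonal events are disjoint -/
theorem mdisj_diag {ι : Type*} [DecidableEq ι] (S : Finset ι) :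
    MDisj (S.image (fun x => (x, x))) := by
  intro p hp q hq hne
  obtain ⟨x, _, rfl⟩ := Finset.mem_image.mp hp
  obtain ⟨y, _, rfl⟩ := Finset.mem_image.mp hq
  have : x ≠ y := fun h => hne (by rw [h])
  exact ⟨this, this, this, this⟩

theorem card_diag {ι : Type*} [DecidableEq ι] (S : Finset ι) :
    (S.image (fun x => (x, x))).card = S.card :=
  Finset.card_image_of_injective _ (fun _ _ h => (Prod.mk.inj h).1)

/-- a maximal disjoint subfamily: every event meets it -/
theorem exists_max_mdisj {ι : Type*} [DecidableEq ι] (H : Finset (ι × ι)) :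
    ∃ S ⊆ H, MDisj S ∧ ∀ p ∈ H, ∃ q ∈ S, p.1 = q.1 ∨ p.1 = q.2 ∨ p.2 = q.1 ∨ p.2 = q.2 := by
  classical
  have hne : (H.powerset.filter (fun S => MDisj S)).Nonempty :=
    ⟨∅, Finset.mem_filter.mpr ⟨Finset.mem_powerset.mpr (Finset.empty_subset _),
      fun p hp => absurd hp (Finset.notMem_empty _)⟩⟩
  obtain ⟨S, hS, hmax⟩ := Finset.exists_max_image _ (fun S => S.card) hne
  obtain ⟨h1, h2⟩ := Finset.mem_filter.mp hS
  refine ⟨S, Finset.mem_powerset.mp h1, h2, ?_⟩
  intro p hp
  by_contra hcon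
  push Not at hcon
  have hpS : p ∉ S := fun h => (hcon p h).1 rfl
  have h3 : insert p S ∈ H.powerset.filter (fun S => MDisj S) := by
    refine Finset.mem_filter.mpr ⟨Finset.mem_powerset.mpr
      (Finset.insert_subset hp (Finset.mem_powerset.mp h1)), ?_⟩
    intro a ha b hb hab
    rcases Finset.mem_insert.mp ha with rfl | ha'
    · rcases Finset.mem_insert.mp hb with rfl | hb'
      · exact absurd rfl hab
      · exact hcon b hb'
    · rcases Finset.mem_insert.mp hb with rfl | hb'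
      · obtain ⟨c1, c2, c3, c4⟩ := hcon a ha'
        exact ⟨c1.symm, c3.symm, c2.symm, c4.symm⟩
      · exact h2 a ha' b hb' hab
  have h4 := hmax _ h3
  rw [Finset.card_insert_of_notMem hpS] at h4
  omega

/-- if disjoint subfamilies have less than `r` members and all degrees are at most `d`
then there are at most `4 d r` events -/
theorem card_of_mdisj {ι : Type*} [DecidableEq ι] (H : Finset (ι × ι)) (r d : ℕ)
    (hr : ∀ S ⊆ H, MDisj S → S.card < r)
    (h1 : ∀ x, (H.filter (fun p => p.1 = x)).card ≤ d)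
    (h2 : ∀ x, (H.filter (fun p => p.2 = x)).card ≤ d) : H.card ≤ 4 * d * r := by
  classical
  obtain ⟨S, hSH, hd, hmax⟩ := exists_max_mdisj H
  have hSr := hr S hSH hd
  have hsub : H ⊆ S.biUnion (fun q => (H.filter (fun p => p.1 = q.1)) ∪
      (H.filter (fun p => p.1 = q.2)) ∪ (H.filter (fun p => p.2 = q.1)) ∪
      (H.filter (fun p => p.2 = q.2))) := by
    intro p hp
    obtain ⟨q, hq, h⟩ := hmax p hp
    rw [Finset.mem_biUnion]
    refine ⟨q, hq, ?_⟩
    simp only [Finset.mem_union, Finset.mem_filter]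
    rcases h with h | h | h | h
    · exact Or.inl (Or.inl (Or.inl ⟨hp, h⟩))
    · exact Or.inl (Or.inl (Or.inr ⟨hp, h⟩))
    · exact Or.inl (Or.inr ⟨hp, h⟩)
    · exact Or.inr ⟨hp, h⟩
  calc H.card ≤ _ := Finset.card_le_card hsub
    _ ≤ ∑ q ∈ S, 4 * d := by
        refine Finset.card_biUnion_le.trans (Finset.sum_le_sum ?_)
        intro q _
        refine (Finset.card_union_le _ _).trans ?_
        refine (Nat.add_le_add_right (Finset.card_union_le _ _) _).trans ?_
        refine (Nat.add_le_add_right (Nat.add_le_add_right (Finset.card_union_le _ _) _) _).trans ?_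
        have a1 := h1 q.1
        have a2 := h1 q.2
        have a3 := h2 q.1
        have a4 := h2 q.2
        omega
    _ = S.card * (4 * d) := by rw [Finset.sum_const, smul_eq_mul]
    _ ≤ r * (4 * d) := Nat.mul_le_mul_right _ hSr.le
    _ = 4 * d * r := Nat.mul_comm _ _

/-- numerical form of the condition of `exists_rf`, many events per test -/
theorem rf_thr2 {m q s r N c b J : ℕ} (hJ : J ≤ 2 ^ N) (hc : c ≤ 2 ^ s)
    (hb : b * 2 ^ (q + s) ≤ 2 ^ m) (h : 1 + N ≤ q * r) :
    2 * J * (c.choose r * b ^ r) ≤ (2 ^ m) ^ r := by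
  have hpos : 0 < 2 ^ (q * r) := Nat.pow_pos (by norm_num)
  refine Nat.le_of_mul_le_mul_right ?_ hpos
  have h1 : c.choose r ≤ (2 ^ s) ^ r := (Nat.choose_le_pow c r).trans (Nat.pow_le_pow_left hc r)
  calc 2 * J * (c.choose r * b ^ r) * 2 ^ (q * r)
      ≤ 2 * 2 ^ N * ((2 ^ s) ^ r * b ^ r) * 2 ^ (q * r) :=
        Nat.mul_le_mul_right _ (Nat.mul_le_mul (Nat.mul_le_mul_left _ hJ)
          (Nat.mul_le_mul_right _ h1))
    _ = 2 ^ (1 + N) * (b * 2 ^ (q + s)) ^ r := by
        rw [mul_pow, pow_add 2 q s, mul_pow, pow_mul, pow_add 2 1 N, pow_one]; ring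
    _ ≤ 2 ^ (q * r) * (2 ^ m) ^ r :=
        Nat.mul_le_mul (Nat.pow_le_pow_right (by norm_num) h) (Nat.pow_le_pow_left hb _)
    _ = (2 ^ m) ^ r * 2 ^ (q * r) := Nat.mul_comm _ _

/-- **Random function with few hits**, threshold form, many events: at most `2 ^ N` tests, at most
`2 ^ s` events per test, each event has probability at most `2 ^ (- q - s)`. -/
theorem exists_rf_thr2 {J : Type*} (JJ : Finset J) (A : Finset ℕ) (m q s r N : ℕ)
    (hJ : JJ.card ≤ 2 ^ N)
    (E : J → Finset (ℕ × ℕ)) (hE : ∀ j ∈ JJ, ∀ p ∈ E j, p.1 ∈ A ∧ p.2 ∈ A)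
    (hEc : ∀ j ∈ JJ, (E j).card ≤ 2 ^ s)
    (hit : J → ℕ × ℕ → ℕ → ℕ → Prop) (b : ℕ) (hb : b * 2 ^ (q + s) ≤ 2 ^ m)
    (hh : ∀ j ∈ JJ, ∀ p ∈ E j, HitB (2 ^ m) b (hit j) p) (h : 1 + N ≤ q * r) :
    ∃ f : ℕ → ℕ, (∀ x, f x < 2 ^ m) ∧ ∀ j ∈ JJ, ∀ S ⊆ E j, MDisj S →
      (∀ p ∈ S, hit j p (f p.1) (f p.2)) → S.card < r :=
  exists_rf JJ A (Nat.pow_pos (by norm_num)) E hE hit (fun _ => b) (fun _ => r) hh
    (fun j hj => rf_thr2 hJ (hEc j hj) hb h)

/-- if disjoint families of supports have less than `r` members and all degrees are at most `d`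
then there are at most `4 d r` elements -/
theorem card_of_mdisj_map {X ι : Type*} [DecidableEq ι] (H : Finset X) (π : X → ι × ι) (r d : ℕ)
    (hr : ∀ S : Finset (ι × ι), (∀ p ∈ S, ∃ a ∈ H, π a = p) → MDisj S → S.card < r)
    (h1 : ∀ x, (H.filter (fun a => (π a).1 = x)).card ≤ d)
    (h2 : ∀ x, (H.filter (fun a => (π a).2 = x)).card ≤ d) : H.card ≤ 4 * d * r := by
  classical
  obtain ⟨S, hSH, hd, hmax⟩ := exists_max_mdisj (H.image π)
  have hSr := hr S (fun p hp => Finset.mem_image.mp (hSH hp)) hd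
  have hsub : H ⊆ S.biUnion (fun q => (H.filter (fun p => (π p).1 = q.1)) ∪
      (H.filter (fun p => (π p).1 = q.2)) ∪ (H.filter (fun p => (π p).2 = q.1)) ∪
      (H.filter (fun p => (π p).2 = q.2))) := by
    intro p hp
    obtain ⟨q, hq, h⟩ := hmax (π p) (Finset.mem_image_of_mem _ hp)
    rw [Finset.mem_biUnion]
    refine ⟨q, hq, ?_⟩
    simp only [Finset.mem_union, Finset.mem_filter]
    rcases h with h | h | h | h
    · exact Or.inl (Or.inl (Or.inl ⟨hp, h⟩))
    · exact Or.inl (Or.inl (Or.inr ⟨hp, h⟩))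
    · exact Or.inl (Or.inr ⟨hp, h⟩)
    · exact Or.inr ⟨hp, h⟩
  calc H.card ≤ _ := Finset.card_le_card hsub
    _ ≤ ∑ q ∈ S, 4 * d := by
        refine Finset.card_biUnion_le.trans (Finset.sum_le_sum ?_)
        intro q _
        refine (Finset.card_union_le _ _).trans ?_
        refine (Nat.add_le_add_right (Finset.card_union_le _ _) _).trans ?_
        refine (Nat.add_le_add_right (Nat.add_le_add_right (Finset.card_union_le _ _) _) _).trans ?_
        have a1 := h1 q.1
        have a2 := h1 q.2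
        have a3 := h2 q.1
        have a4 := h2 q.2
        omega
    _ = S.card * (4 * d) := by rw [Finset.sum_const, smul_eq_mul]
    _ ≤ r * (4 * d) := Nat.mul_le_mul_right _ hSr.le
    _ = 4 * d * r := Nat.mul_comm _ _

end Pool.Agent.E2
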